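import Mathlib

set_option autoImplicit false

/-!
A quadratic polynomial over a normed field with normalised coefficients is small at two separated
points at most; if it is small at two of them, then its discriminant is not small.
-/

namespace Pool.Agent.X124.SA

open Finset

lemma four_le {K : Type*} [NormedField K] : ‖(4 : K)‖ ≤ 4 := by
  have h := Nat.norm_cast_le (α := K) 4
  rw [norm_one, mul_one] at h
  exact_mod_cast h

lemma two_small {K : Type*} [NormedField K] {M η c : ℝ} (hM : 1 ≤ M) (hη : 0 < η) (hη1 : η ≤ 1)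
    (hc0 : 0 < c) (hc : c * (2048 * M ^ 4) ≤ η ^ 3) {A B C : K} (hA : ‖A‖ ≤ 1)
    (hn : ‖A‖ = 1 ∨ ‖B‖ = 1 ∨ ‖C‖ = 1) {x y : K} (hx : ‖x‖ ≤ M) (hy : ‖y‖ ≤ M)
    (hxy : η ≤ ‖x - y‖) (h1 : ‖A * x ^ 2 + B * x + C‖ < c) (h2 : ‖A * y ^ 2 + B * y + C‖ < c) :
    c ≤ Real.sqrt ‖B ^ 2 - 4 * A * C‖ ∧ ∀ z : K, ‖z‖ ≤ M → η ≤ ‖z - x‖ → η ≤ ‖z - y‖ →
      c ≤ ‖A * z ^ 2 + B * z + C‖ := by
  set e1 := A * x ^ 2 + B * x + C with he1
  set e2 := A * y ^ 2 + B * y + C with he2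
  have hxy0 : x - y ≠ 0 := by
    intro h
    rw [h, norm_zero] at hxy
    linarith
  set g := (e1 - e2) / (x - y) with hg
  have hgn : ‖g‖ * η ≤ 2 * c := by
    have e : ‖g‖ * ‖x - y‖ = ‖e1 - e2‖ := by
      rw [hg, norm_div, div_mul_cancel₀ _ (norm_ne_zero_iff.2 hxy0)]
    have e3 : ‖e1 - e2‖ ≤ 2 * c := by
      have := norm_sub_le e1 e2
      linarith
    calc ‖g‖ * η ≤ ‖g‖ * ‖x - y‖ := mul_le_mul_of_nonneg_left hxy (norm_nonneg _)
      _ ≤ _ := by rw [e]; exact e3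
  have hgB : g = A * (x + y) + B := by
    rw [hg, div_eq_iff hxy0, he1, he2]
    ring
  have hM0 : 0 < M := by linarith
  have hM2 : 1 ≤ M ^ 2 := one_le_pow₀ hM
  have hM3 : M ≤ M ^ 2 := by nlinarith
  have hM4 : M ^ 2 ≤ M ^ 4 := pow_le_pow_right₀ hM (by norm_num)
  have hη2 : η ^ 2 ≤ η := by nlinarith
  have hη3 : η ^ 3 ≤ η ^ 2 := pow_le_pow_of_le_one hη.le hη1 (by norm_num)
  -- bounds for `c`
  have hcη : c * (2048 * M ^ 4) ≤ η ^ 2 := hc.trans hη3
  have hG : ‖g‖ * (1024 * M ^ 4) ≤ η ^ 2 := by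
    have h3 : ‖g‖ * η * (1024 * M ^ 4) ≤ η ^ 2 * η := by
      calc ‖g‖ * η * (1024 * M ^ 4) ≤ 2 * c * (1024 * M ^ 4) :=
            mul_le_mul_of_nonneg_right hgn (by positivity)
        _ = c * (2048 * M ^ 4) := by ring
        _ ≤ η ^ 3 := hc
        _ = η ^ 2 * η := by ring
    have h4 : (‖g‖ * (1024 * M ^ 4)) * η ≤ η ^ 2 * η := by linarith
    exact le_of_mul_le_mul_right h4 hη
  have hg0 := norm_nonneg g
  have hGM : ‖g‖ * M * 1024 ≤ η ^ 2 := by
    have : ‖g‖ * M ≤ ‖g‖ * M ^ 4 := mul_le_mul_of_nonneg_left (hM3.trans hM4) hg0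
    linarith
  have hG1 : ‖g‖ * (1024 * M ^ 2) ≤ η ^ 2 := by
    have : ‖g‖ * M ^ 2 ≤ ‖g‖ * M ^ 4 := mul_le_mul_of_nonneg_left hM4 hg0
    linarith
  have hg1 : ‖g‖ * 1024 ≤ η ^ 2 := by
    have : ‖g‖ * 1 ≤ ‖g‖ * M ^ 2 := mul_le_mul_of_nonneg_left hM2 hg0
    linarith
  have hc1 : c * 2048 ≤ η ^ 2 := by
    have : c * 1 ≤ c * M ^ 4 := mul_le_mul_of_nonneg_left (hM2.trans hM4) hc0.le
    linarith
  have hc2 : c * (2048 * M ^ 2) ≤ η ^ 2 := by
    have : c * M ^ 2 ≤ c * M ^ 4 := mul_le_mul_of_nonneg_left hM4 hc0.le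
    linarith
  have hη2' : η ^ 2 ≤ 1 := by nlinarith
  have hAn := norm_nonneg A
  -- the leading coefficient
  have hAlow : 1 ≤ 8 * M ^ 2 * ‖A‖ := by
    rcases hn with h | h | h
    · rw [h]; nlinarith
    · have e : B = g - A * (x + y) := by rw [hgB]; ring
      have e3 : ‖B‖ ≤ ‖g‖ + ‖A‖ * (M + M) := by
        rw [e]
        refine (norm_sub_le _ _).trans ?_
        rw [norm_mul]
        gcongr
        exact (norm_add_le _ _).trans (add_le_add hx hy)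
      rw [h] at e3
      nlinarith
    · have e : C = e1 - g * x + A * (x * y) := by rw [hgB, he1]; ring
      have e3 : ‖C‖ ≤ c + ‖g‖ * M + ‖A‖ * (M * M) := by
        rw [e]
        refine (norm_add_le _ _).trans (add_le_add ((norm_sub_le _ _).trans (add_le_add h1.le ?_)) ?_)
        · rw [norm_mul]; gcongr
        · rw [norm_mul, norm_mul]; gcongr
      rw [h] at e3
      nlinarith
  refine ⟨?_, ?_⟩
  · have hd : B ^ 2 - 4 * A * C = (g + A * (x - y)) ^ 2 - 4 * A * e1 := by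
      rw [hgB, he1]; ring
    have k1 : ‖A‖ * η ≤ ‖g + A * (x - y)‖ + ‖g‖ := by
      have : A * (x - y) = (g + A * (x - y)) - g := by ring
      calc ‖A‖ * η ≤ ‖A‖ * ‖x - y‖ := mul_le_mul_of_nonneg_left hxy hAn
        _ = ‖A * (x - y)‖ := (norm_mul _ _).symm
        _ ≤ _ := by
          conv_lhs => rw [this]
          exact norm_sub_le _ _
    set W := ‖g + A * (x - y)‖ with hW
    have hW0 : 0 ≤ W := norm_nonneg _
    have k2 : η ≤ 16 * M ^ 2 * W := by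
      have a1 : η ≤ 8 * M ^ 2 * (‖A‖ * η) := by
        have := mul_le_mul_of_nonneg_right hAlow hη.le
        linarith
      have a2 : 8 * M ^ 2 * (‖A‖ * η) ≤ 8 * M ^ 2 * (W + ‖g‖) :=
        mul_le_mul_of_nonneg_left k1 (by positivity)
      nlinarith
    have k3 : W ^ 2 ≤ ‖B ^ 2 - 4 * A * C‖ + 4 * c := by
      have e : (g + A * (x - y)) ^ 2 = (B ^ 2 - 4 * A * C) + 4 * A * e1 := by rw [hd]; ring
      have e3 : W ^ 2 = ‖(B ^ 2 - 4 * A * C) + 4 * A * e1‖ := by rw [← e, norm_pow]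
      rw [e3]
      refine (norm_add_le _ _).trans (add_le_add le_rfl ?_)
      rw [norm_mul, norm_mul]
      have e4 := four_le (K := K)
      have e5 : ‖(4 : K)‖ * ‖A‖ ≤ 4 * 1 := mul_le_mul e4 hA hAn (by norm_num)
      calc ‖(4 : K)‖ * ‖A‖ * ‖e1‖ ≤ 4 * 1 * c :=
            mul_le_mul e5 h1.le (norm_nonneg _) (by norm_num)
        _ = _ := by ring
    have k4 : η ^ 2 ≤ 256 * M ^ 4 * W ^ 2 := by
      have := pow_le_pow_left₀ hη.le k2 2
      calc η ^ 2 ≤ (16 * M ^ 2 * W) ^ 2 := this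
        _ = _ := by ring
    have k5 : η ^ 2 ≤ 256 * M ^ 4 * ‖B ^ 2 - 4 * A * C‖ + η ^ 2 / 2 := by
      have := mul_le_mul_of_nonneg_left k3 (by positivity : (0 : ℝ) ≤ 256 * M ^ 4)
      nlinarith
    rw [Real.le_sqrt' hc0]
    have k6 : c ^ 2 * (256 * M ^ 4) ≤ η ^ 2 / 2 := by
      have b1 : c ^ 2 ≤ c := by nlinarith
      have b2 : c ^ 2 * (256 * M ^ 4) ≤ c * (256 * M ^ 4) :=
        mul_le_mul_of_nonneg_right b1 (by positivity)
      nlinarith [mul_nonneg hc0.le (by positivity : (0 : ℝ) ≤ M ^ 4)]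
    have k7 : c ^ 2 * (256 * M ^ 4) ≤ ‖B ^ 2 - 4 * A * C‖ * (256 * M ^ 4) := by linarith
    exact le_of_mul_le_mul_right k7 (by positivity)
  · intro z hz hzx hzy
    by_contra hlt
    push Not at hlt
    have e : A * ((z - x) * (z - y)) = (A * z ^ 2 + B * z + C) - e1 - g * (z - x) := by
      rw [hgB, he1]; ring
    have k1 : ‖A‖ * (η * η) ≤ c + c + ‖g‖ * (M + M) := by
      calc ‖A‖ * (η * η) ≤ ‖A‖ * (‖z - x‖ * ‖z - y‖) := by gcongr
        _ = ‖A * ((z - x) * (z - y))‖ := by rw [norm_mul, norm_mul]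
        _ ≤ _ := by
          rw [e]
          refine (norm_sub_le _ _).trans (add_le_add ((norm_sub_le _ _).trans
            (add_le_add hlt.le h1.le)) ?_)
          rw [norm_mul]
          gcongr
          exact (norm_sub_le _ _).trans (add_le_add hz hx)
    have k2 : η ^ 2 ≤ 8 * M ^ 2 * (‖A‖ * (η * η)) := by
      have := mul_le_mul_of_nonneg_right hAlow (by positivity : (0 : ℝ) ≤ η * η)
      nlinarith
    have k3 : 8 * M ^ 2 * (‖A‖ * (η * η)) ≤ 8 * M ^ 2 * (c + c + ‖g‖ * (M + M)) :=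
      mul_le_mul_of_nonneg_left k1 (by positivity)
    have k4 : ‖g‖ * M ^ 3 ≤ ‖g‖ * M ^ 4 :=
      mul_le_mul_of_nonneg_left (pow_le_pow_right₀ hM (by norm_num)) hg0
    have k5 : 8 * M ^ 2 * (c + c + ‖g‖ * (M + M)) = 16 * (c * M ^ 2) + 16 * (‖g‖ * M ^ 3) := by
      ring
    have hη20 : 0 < η ^ 2 := by positivity
    nlinarith

/-- the product of the values at given points -/
theorem prod_le {K : Type*} [NormedField K] {q : ℕ} (x : Fin q → K) (hx : Function.Injective x)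
    (s : ℝ) (hs : 0 < s) (hs1 : s < 1) : ∃ R : ℝ, 0 < R ∧ ∀ A B C : K, ‖A‖ ≤ 1 → ‖B‖ ≤ 1 → ‖C‖ ≤ 1 →
      (‖A‖ = 1 ∨ ‖B‖ = 1 ∨ ‖C‖ = 1) → 0 < ‖B ^ 2 - 4 * A * C‖ →
      (∀ j, 0 < ‖A * x j ^ 2 + B * x j + C‖) →
      ∏ j, ‖A * x j ^ 2 + B * x j + C‖ ^ (-s) ≤
        R * ((Real.sqrt ‖B ^ 2 - 4 * A * C‖) ^ (-s) *
          ∏ j, (1 + (Real.sqrt ‖B ^ 2 - 4 * A * C‖) ^ s * ‖A * x j ^ 2 + B * x j + C‖ ^ (-s))) := by
  classical
  -- the constants
  obtain ⟨M, hM, hMx⟩ : ∃ M : ℝ, 1 ≤ M ∧ ∀ j, ‖x j‖ ≤ M := by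
    refine ⟨1 + ∑ j, ‖x j‖, ?_, fun j => ?_⟩
    · have := Finset.sum_nonneg (s := Finset.univ) fun j _ => norm_nonneg (x j)
      linarith
    · have := Finset.single_le_sum (fun j _ => norm_nonneg (x j)) (Finset.mem_univ j)
      linarith
  obtain ⟨η, hη, hη1, hηx⟩ : ∃ η : ℝ, 0 < η ∧ η ≤ 1 ∧ ∀ i j, i ≠ j → η ≤ ‖x i - x j‖ := by
    by_cases hne : (Finset.univ.filter fun p : Fin q × Fin q => p.1 ≠ p.2).Nonempty
    · obtain ⟨p0, hp0, hmin⟩ := Finset.exists_min_image _ (fun p => ‖x p.1 - x p.2‖) hne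
      refine ⟨min 1 ‖x p0.1 - x p0.2‖, lt_min one_pos ?_, min_le_left _ _, fun i j hij => ?_⟩
      · rw [Finset.mem_filter] at hp0
        rw [norm_pos_iff, sub_ne_zero]
        exact fun h => hp0.2 (hx h)
      · exact (min_le_right _ _).trans (hmin (i, j) (Finset.mem_filter.2 ⟨Finset.mem_univ _, hij⟩))
    · refine ⟨1, one_pos, le_refl _, fun i j hij => ?_⟩
      exact absurd ⟨(i, j), Finset.mem_filter.2 ⟨Finset.mem_univ _, hij⟩⟩ hne
  set c : ℝ := η ^ 3 / (2048 * M ^ 4) with hc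
  have hM0 : 0 < M := by linarith
  have hc0 : 0 < c := by rw [hc]; positivity
  have hcle : c * (2048 * M ^ 4) ≤ η ^ 3 := by
    rw [hc, div_mul_cancel₀ _ (by positivity)]
  have hc1 : c ≤ 1 := by
    rw [hc, div_le_one (by positivity)]
    have : η ^ 3 ≤ 1 := pow_le_one₀ hη.le hη1
    have : 1 ≤ M ^ 4 := one_le_pow₀ hM
    linarith
  set L : ℝ := c ^ (-s) with hL
  have hL1 : 1 ≤ L := Real.one_le_rpow_of_pos_of_le_one_of_nonpos hc0 hc1 (by linarith)
  refine ⟨3 * L ^ q * L, by positivity, fun A B C hA hB hC hn hD hf => ?_⟩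
  set δ : ℝ := Real.sqrt ‖B ^ 2 - 4 * A * C‖ with hδ
  have hδ0 : 0 < δ := Real.sqrt_pos.2 hD
  have hδ3 : δ ≤ 3 := by
    rw [hδ, Real.sqrt_le_left (by norm_num)]
    have e1 : ‖B ^ 2‖ ≤ 1 := by rw [norm_pow]; exact pow_le_one₀ (norm_nonneg _) hB
    have e2 : ‖4 * A * C‖ ≤ 4 := by
      rw [norm_mul, norm_mul]
      calc ‖(4 : K)‖ * ‖A‖ * ‖C‖ ≤ 4 * 1 * 1 := by
            have := four_le (K := K)
            gcongr
        _ = 4 := by norm_num
    have := norm_sub_le (B ^ 2) (4 * A * C)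
    linarith
  set v : Fin q → ℝ := fun j => ‖A * x j ^ 2 + B * x j + C‖ with hv
  have hv0 : ∀ j, 0 < v j := hf
  set J : Finset (Fin q) := Finset.univ.filter fun j => v j < c with hJ
  have hJc : J.card ≤ 2 ∧ (J.card = 2 → c ≤ δ) := by
    by_cases h2 : 2 ≤ J.card
    · obtain ⟨i, hi, j, hj, hij⟩ := Finset.one_lt_card.1 h2
      have hi' := (Finset.mem_filter.1 hi).2
      have hj' := (Finset.mem_filter.1 hj).2
      obtain ⟨k1, k2⟩ := two_small hM hη hη1 hc0 hcle hA hn (hMx i) (hMx j) (hηx i j hij) hi' hj'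
      have hsub : J ⊆ {i, j} := by
        intro k hk
        have hk' := (Finset.mem_filter.1 hk).2
        rw [Finset.mem_insert, Finset.mem_singleton]
        by_contra hne
        push Not at hne
        exact absurd hk' (not_lt.2 (k2 (x k) (hMx k) (hηx k i hne.1) (hηx k j hne.2)))
      exact ⟨(Finset.card_le_card hsub).trans (Finset.card_le_two), fun _ => k1⟩
    · exact ⟨by omega, fun h => by omega⟩
  -- the estimate
  have h1 : ∏ j, v j ^ (-s) ≤ L ^ q * ∏ j ∈ J, v j ^ (-s) := by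
    rw [← Finset.prod_filter_mul_prod_filter_not Finset.univ (fun j => v j < c), ← hJ, mul_comm]
    refine mul_le_mul_of_nonneg_right ?_ (Finset.prod_nonneg fun j _ =>
      Real.rpow_nonneg (hv0 j).le _)
    calc ∏ j ∈ Finset.univ.filter (fun j => ¬ v j < c), v j ^ (-s)
        ≤ ∏ j ∈ Finset.univ.filter (fun j => ¬ v j < c), L := by
          refine Finset.prod_le_prod (fun j _ => Real.rpow_nonneg (hv0 j).le _) fun j hj => ?_
          have := not_lt.1 (Finset.mem_filter.1 hj).2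
          exact Real.rpow_le_rpow_of_nonpos hc0 this (by linarith)
      _ = L ^ (Finset.univ.filter (fun j => ¬ v j < c)).card := by rw [Finset.prod_const]
      _ ≤ L ^ q := pow_le_pow_right₀ hL1 (by
          calc _ ≤ (Finset.univ : Finset (Fin q)).card := Finset.card_filter_le _ _
            _ = q := by simp)
  have h2 : δ ^ (-s) * ∏ j ∈ J, (δ ^ s * v j ^ (-s)) ≤
      δ ^ (-s) * ∏ j, (1 + δ ^ s * v j ^ (-s)) := by
    refine mul_le_mul_of_nonneg_left ?_ (by positivity)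
    have hpos : ∀ j, 0 ≤ δ ^ s * v j ^ (-s) := fun j =>
      mul_nonneg (by positivity) (Real.rpow_nonneg (hv0 j).le _)
    calc ∏ j ∈ J, (δ ^ s * v j ^ (-s)) ≤ ∏ j ∈ J, (1 + δ ^ s * v j ^ (-s)) :=
          Finset.prod_le_prod (fun j _ => hpos j) fun j _ => by linarith
      _ ≤ ∏ j, (1 + δ ^ s * v j ^ (-s)) := by
          rw [← Finset.prod_sdiff (Finset.subset_univ J)]
          refine le_mul_of_one_le_left (Finset.prod_nonneg fun j _ => by linarith [hpos j]) ?_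
          calc (1 : ℝ) = ∏ j ∈ Finset.univ \ J, (1 : ℝ) := by rw [Finset.prod_const_one]
            _ ≤ _ := Finset.prod_le_prod (fun _ _ => zero_le_one) fun j _ => by
              linarith [hpos j]
  have h3 : ∏ j ∈ J, v j ^ (-s) ≤ 3 * L * (δ ^ (-s) * ∏ j ∈ J, (δ ^ s * v j ^ (-s))) := by
    rw [Finset.prod_mul_distrib, Finset.prod_const]
    have hP : 0 ≤ ∏ j ∈ J, v j ^ (-s) := Finset.prod_nonneg fun j _ =>
      Real.rpow_nonneg (hv0 j).le _
    have h4 : 1 ≤ 3 * L * (δ ^ (-s) * (δ ^ s) ^ J.card) := by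
      have hδs : 0 < δ ^ s := by positivity
      have hcc : J.card = 0 ∨ J.card = 1 ∨ J.card = 2 := by omega
      rcases hcc with h | h | h
      · rw [h, pow_zero, mul_one]
        have e1 : (3 : ℝ)⁻¹ ≤ δ ^ (-s) := by
          rw [Real.rpow_neg hδ0.le]
          apply inv_anti₀ hδs
          calc δ ^ s ≤ 3 ^ s := Real.rpow_le_rpow hδ0.le hδ3 hs.le
            _ ≤ 3 ^ (1 : ℝ) := Real.rpow_le_rpow_of_exponent_le (by norm_num) hs1.le
            _ = 3 := Real.rpow_one 3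
        nlinarith
      · rw [h, pow_one, Real.rpow_neg hδ0.le, inv_mul_cancel₀ hδs.ne']
        linarith
      · rw [h, Real.rpow_neg hδ0.le]
        have e1 : (δ ^ s)⁻¹ * (δ ^ s) ^ 2 = δ ^ s := by field_simp
        rw [e1]
        have e2 : c ^ s ≤ δ ^ s := Real.rpow_le_rpow hc0.le (hJc.2 h) hs.le
        have e3 : L * c ^ s = 1 := by
          rw [hL, ← Real.rpow_add hc0, neg_add_cancel, Real.rpow_zero]
        nlinarith
    calc ∏ j ∈ J, v j ^ (-s) = 1 * ∏ j ∈ J, v j ^ (-s) := (one_mul _).symm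
      _ ≤ (3 * L * (δ ^ (-s) * (δ ^ s) ^ J.card)) * ∏ j ∈ J, v j ^ (-s) :=
          mul_le_mul_of_nonneg_right h4 hP
      _ = _ := by ring
  calc ∏ j, v j ^ (-s) ≤ L ^ q * ∏ j ∈ J, v j ^ (-s) := h1
    _ ≤ L ^ q * (3 * L * (δ ^ (-s) * ∏ j ∈ J, (δ ^ s * v j ^ (-s)))) :=
        mul_le_mul_of_nonneg_left h3 (by positivity)
    _ ≤ L ^ q * (3 * L * (δ ^ (-s) * ∏ j, (1 + δ ^ s * v j ^ (-s)))) := by
        refine mul_le_mul_of_nonneg_left (mul_le_mul_of_nonneg_left h2 ?_) ?_ <;> positivity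
    _ = _ := by ring

end Pool.Agent.X124.SA
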