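import Mathlib

set_option autoImplicit false

/-!
Almost everywhere boundedness of a countable family of product functions, and the moments of a
function with small sublevel sets.
-/

namespace Pool.Agent.X124.SA

open MeasureTheory Set

theorem ae_bound {U : Type*} [Countable U] {X : Type*} [MeasurableSpace X] (μ₀ : Measure X)
    [SigmaFinite μ₀] {ι : Type*} [Fintype ι] {E : ι → Type*} [∀ i, MeasurableSpace (E i)]
    (μ : ∀ i, Measure (E i)) [∀ i, SigmaFinite (μ i)]
    (F₀ : U → X → ℝ) (F : ∀ i, U → E i → ℝ) (h00 : ∀ u x, 0 ≤ F₀ u x)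
    (hF0 : ∀ i u x, 0 ≤ F i u x) (hint0 : ∀ u, Integrable (F₀ u) μ₀)
    (hint : ∀ i u, Integrable (F i u) (μ i)) (w : U → ℝ) (hw : ∀ u, 0 ≤ w u)
    (hs : Summable fun u => w u * ((∫ x, F₀ u x ∂μ₀) * ∏ i, ∫ x, F i u x ∂(μ i))) :
    ∀ᵐ P ∂(μ₀.prod (Measure.pi μ)), ∃ C : ℝ, ∀ u, w u * (F₀ u P.1 * ∏ i, F i u (P.2 i)) ≤ C := by
  set G : U → X × (∀ i, E i) → ℝ := fun u P => w u * (F₀ u P.1 * ∏ i, F i u (P.2 i)) with hG
  have hG0 : ∀ u P, 0 ≤ G u P := fun u P =>
    mul_nonneg (hw u) (mul_nonneg (h00 u _) (Finset.prod_nonneg fun i _ => hF0 i u _))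
  have hGi : ∀ u, Integrable (G u) (μ₀.prod (Measure.pi μ)) := by
    intro u
    have h1 : Integrable (fun x : ∀ i, E i => ∏ i, F i u (x i)) (Measure.pi μ) :=
      Integrable.fintype_prod_dep (fun i => hint i u)
    exact ((hint0 u).mul_prod h1).const_mul (w u)
  have hGv : ∀ u, ∫ P, G u P ∂(μ₀.prod (Measure.pi μ)) =
      w u * ((∫ x, F₀ u x ∂μ₀) * ∏ i, ∫ x, F i u x ∂(μ i)) := by
    intro u
    rw [hG]
    simp only
    rw [integral_const_mul]
    congr 1
    rw [integral_prod_mul (fun x => F₀ u x) (fun y : ∀ i, E i => ∏ i, F i u (y i))]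
    congr 1
    exact integral_fintype_prod_eq_prod (fun i => F i u)
  have hmeas : ∀ u, AEMeasurable (fun P => ENNReal.ofReal (G u P)) (μ₀.prod (Measure.pi μ)) :=
    fun u => (hGi u).aestronglyMeasurable.aemeasurable.ennreal_ofReal
  have hsum : ∫⁻ P, ∑' u, ENNReal.ofReal (G u P) ∂(μ₀.prod (Measure.pi μ)) ≠ ⊤ := by
    rw [lintegral_tsum hmeas]
    have h1 : ∀ u, ∫⁻ P, ENNReal.ofReal (G u P) ∂(μ₀.prod (Measure.pi μ)) =
        ENNReal.ofReal (w u * ((∫ x, F₀ u x ∂μ₀) * ∏ i, ∫ x, F i u x ∂(μ i))) := by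
      intro u
      rw [← hGv u, ofReal_integral_eq_lintegral_ofReal (hGi u)
        (Filter.Eventually.of_forall (hG0 u))]
    simp only [h1]
    rw [← ENNReal.ofReal_tsum_of_nonneg (fun u => by rw [← hGv u]; exact integral_nonneg (hG0 u)) hs]
    exact ENNReal.ofReal_ne_top
  have hae := ae_lt_top' (AEMeasurable.ennreal_tsum hmeas) hsum
  filter_upwards [hae] with P hP
  refine ⟨(∑' u, ENNReal.ofReal (G u P)).toReal, fun u => ?_⟩
  have h1 : ENNReal.ofReal (G u P) ≤ ∑' u, ENNReal.ofReal (G u P) :=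
    ENNReal.le_tsum (f := fun u => ENNReal.ofReal (G u P)) u
  have h2 := ENNReal.toReal_mono hP.ne h1
  rwa [ENNReal.toReal_ofReal (hG0 u P)] at h2

/-- the moments of a function with small sublevel sets -/
theorem moment {X : Type*} [MeasurableSpace X] (μ : Measure X) [IsFiniteMeasure μ] (m : ℝ)
    (hm : μ univ ≤ ENNReal.ofReal m) (hm0 : 0 ≤ m) (g : X → ℝ) (hg : Measurable g)
    (h0 : ∀ x, 0 ≤ g x) (D : ℝ) (hD : 0 < D)
    (h : ∀ t, 0 < t → μ {x | g x ≤ t} ≤ ENNReal.ofReal (D * t)) (s : ℝ) (hs0 : 0 < s)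
    (hs1 : s < 1) : Integrable (fun x => (g x) ^ (-s)) μ ∧
      ∫ x, (g x) ^ (-s) ∂μ ≤ (m + s / (1 - s)) * D ^ s := by
  have hmeas : Measurable (fun x => (g x) ^ (-s)) := hg.pow_const _
  have hnn : ∀ x, 0 ≤ (g x) ^ (-s) := fun x => Real.rpow_nonneg (h0 x) _
  have hinv : ∀ x, (g x) ^ (-s) = ((g x)⁻¹) ^ s := fun x => by
    rw [Real.rpow_neg (h0 x), Real.inv_rpow (h0 x)]
  have hR0 : 0 ≤ (m + s / (1 - s)) * D ^ s := by
    have : 0 < 1 - s := by linarith
    positivity
  have key : ∫⁻ x, ENNReal.ofReal ((g x) ^ (-s)) ∂μ ≤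
      ENNReal.ofReal ((m + s / (1 - s)) * D ^ s) := by
    simp only [hinv]
    rw [lintegral_rpow_eq_lintegral_meas_lt_mul μ
      (Filter.Eventually.of_forall fun x => inv_nonneg.2 (h0 x)) hg.inv.aemeasurable hs0]
    have hle : ∀ t, 0 < t → μ {a | t < (g a)⁻¹} ≤ ENNReal.ofReal (D / t) := by
      intro t ht
      refine (measure_mono ?_).trans ((h t⁻¹ (inv_pos.2 ht)).trans (le_of_eq ?_))
      · intro x hx
        rw [mem_ofPred_eq] at hx ⊢
        have hgx : 0 < g x := by
          rcases (h0 x).lt_or_eq with h1 | h1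
          · exact h1
          · rw [← h1] at hx; simp at hx; linarith
        rw [lt_inv_comm₀ ht hgx] at hx
        exact hx.le
      · rw [div_eq_mul_inv]
    rw [← Ioc_union_Ioi_eq_Ioi hD.le, lintegral_union measurableSet_Ioi (by
      rw [Set.disjoint_left]; intro x hx hx'; exact absurd hx.2 (not_le.2 hx'))]
    have e1 : ∫⁻ t in Ioc 0 D, μ {a | t < (g a)⁻¹} * ENNReal.ofReal (t ^ (s - 1)) ≤
        ENNReal.ofReal (m * (D ^ s / s)) := by
      have hi : IntegrableOn (fun t : ℝ => t ^ (s - 1)) (Ioc 0 D) := by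
        rw [← intervalIntegrable_iff_integrableOn_Ioc_of_le hD.le]
        exact intervalIntegral.intervalIntegrable_rpow' (by linarith)
      calc ∫⁻ t in Ioc 0 D, μ {a | t < (g a)⁻¹} * ENNReal.ofReal (t ^ (s - 1))
          ≤ ∫⁻ t in Ioc 0 D, ENNReal.ofReal m * ENNReal.ofReal (t ^ (s - 1)) := by
            refine lintegral_mono fun t => ?_
            exact mul_le_mul_left ((measure_mono (subset_univ _)).trans hm) _
        _ = ENNReal.ofReal m * ∫⁻ t in Ioc 0 D, ENNReal.ofReal (t ^ (s - 1)) := by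
            rw [lintegral_const_mul']
            exact ENNReal.ofReal_ne_top
        _ = ENNReal.ofReal m * ENNReal.ofReal (∫ t in Ioc 0 D, t ^ (s - 1)) := by
            rw [ofReal_integral_eq_lintegral_ofReal hi]
            refine (ae_restrict_iff' measurableSet_Ioc).2 (Filter.Eventually.of_forall fun t ht => ?_)
            exact Real.rpow_nonneg ht.1.le _
        _ = _ := by
            rw [← ENNReal.ofReal_mul hm0, ← intervalIntegral.integral_of_le hD.le,
              integral_rpow (Or.inl (by linarith))]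
            congr 2
            rw [sub_add_cancel, Real.zero_rpow hs0.ne', sub_zero]
    have e2 : ∫⁻ t in Ioi D, μ {a | t < (g a)⁻¹} * ENNReal.ofReal (t ^ (s - 1)) ≤
        ENNReal.ofReal (D ^ s / (1 - s)) := by
      have hi : IntegrableOn (fun t : ℝ => D * t ^ (s - 2)) (Ioi D) :=
        (integrableOn_Ioi_rpow_of_lt (by linarith) hD).const_mul D
      calc ∫⁻ t in Ioi D, μ {a | t < (g a)⁻¹} * ENNReal.ofReal (t ^ (s - 1))
          ≤ ∫⁻ t in Ioi D, ENNReal.ofReal (D * t ^ (s - 2)) := by
            refine setLIntegral_mono' measurableSet_Ioi fun t ht => ?_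
            have ht0 : 0 < t := hD.trans ht
            refine (mul_le_mul_left (hle t ht0) _).trans (le_of_eq ?_)
            rw [← ENNReal.ofReal_mul (by positivity)]
            congr 1
            have : t ^ (s - 1) = t * t ^ (s - 2) := by
              rw [← Real.rpow_one_add' ht0.le (by linarith)]
              congr 1; ring
            rw [this]
            field_simp
        _ = ENNReal.ofReal (∫ t in Ioi D, D * t ^ (s - 2)) := by
            rw [ofReal_integral_eq_lintegral_ofReal hi]
            refine (ae_restrict_iff' measurableSet_Ioi).2 (Filter.Eventually.of_forall fun t ht => ?_)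
            have ht0 : 0 < t := hD.trans ht
            positivity
        _ = _ := by
            rw [integral_const_mul, integral_Ioi_rpow_of_lt (by linarith) hD]
            congr 1
            have : D ^ s = D * D ^ (s - 2 + 1) := by
              rw [← Real.rpow_one_add' hD.le (by linarith)]
              congr 1; ring
            rw [this]
            have h3 : s - 2 + 1 = -(1 - s) := by ring
            rw [h3]
            have h4 : (1 - s) ≠ 0 := by linarith
            field_simp
    calc ENNReal.ofReal s * (_ + _) ≤ ENNReal.ofReal s * (ENNReal.ofReal (m * (D ^ s / s)) +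
          ENNReal.ofReal (D ^ s / (1 - s))) := by gcongr
      _ = _ := by
          have h5 : 0 < 1 - s := by linarith
          rw [← ENNReal.ofReal_add (by positivity) (by positivity),
            ← ENNReal.ofReal_mul hs0.le]
          congr 1
          field_simp
  have hint : Integrable (fun x => (g x) ^ (-s)) μ := by
    refine ⟨hmeas.aestronglyMeasurable, ?_⟩
    rw [hasFiniteIntegral_iff_ofReal (Filter.Eventually.of_forall hnn)]
    exact lt_of_le_of_lt key ENNReal.ofReal_lt_top
  refine ⟨hint, ?_⟩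
  rw [← ENNReal.ofReal_le_ofReal_iff hR0, ofReal_integral_eq_lintegral_ofReal hint
    (Filter.Eventually.of_forall hnn)]
  exact key

end Pool.Agent.X124.SA
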