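import Mathlib
import Pool.Agent.X124.SA.Abs
import Pool.Agent.X124.MV.Sub

set_option autoImplicit false

/-!
The Haar measure of the `p`-adic integers and the sublevel sets of integral quadratic polynomials.
-/

namespace Pool.Agent.X124.SA

open MeasureTheory Set Polynomial
open Pool.Agent.X124.MV

variable (p : ℕ) [Fact p.Prime]

/-- The Borel `σ`-algebra on `ℤ_[p]`. -/
@[reducible] noncomputable def msZ : MeasurableSpace ℤ_[p] := borel _

attribute [local instance] msZ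

lemma bsZ : BorelSpace ℤ_[p] := ⟨rfl⟩

attribute [local instance] bsZ

/-- The Haar probability measure on `ℤ_[p]`. -/
noncomputable def mu : Measure ℤ_[p] := Measure.addHaarMeasure ⊤

instance : IsProbabilityMeasure (mu p) := ⟨Measure.addHaarMeasure_self⟩

instance : (mu p).IsAddLeftInvariant := by unfold mu; infer_instance

instance : (mu p).IsAddHaarMeasure := by unfold mu; infer_instance

/-- the measure of a ball of radius `p ^ (-n)` -/
lemma mu_ball (y : ℤ_[p]) (n : ℕ) :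
    mu p {x | ‖x - y‖ ≤ (p : ℝ) ^ (-n : ℤ)} ≤ ENNReal.ofReal ((p : ℝ) ^ (-n : ℤ)) := by
  classical
  have hp : (0 : ℝ) < p := by exact_mod_cast (Fact.out : p.Prime).pos
  set B : Set ℤ_[p] := {x | ‖x - y‖ ≤ (p : ℝ) ^ (-n : ℤ)} with hB
  have hcl : IsClosed B := by
    have : Continuous fun x : ℤ_[p] => ‖x - y‖ := by fun_prop
    exact isClosed_le this continuous_const
  have hmB : MeasurableSet B := hcl.measurableSet
  set T : ℕ → Set ℤ_[p] := fun k => (fun x => (k : ℤ_[p]) + x) ⁻¹' B with hT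
  have hTm : ∀ k, mu p (T k) = mu p B := fun k => measure_preimage_add (mu p) _ B
  have hmT : ∀ k, MeasurableSet (T k) := fun k => by
    have : Continuous fun x : ℤ_[p] => (k : ℤ_[p]) + x := by fun_prop
    exact this.measurable hmB
  have hdis : ∀ k ∈ Finset.range (p ^ n), ∀ l ∈ Finset.range (p ^ n), k ≠ l →
      Disjoint (T k) (T l) := by
    intro k hk l hl hkl
    rw [Set.disjoint_left]
    intro x hx hx'
    have h1 : ‖(k : ℤ_[p]) + x - y‖ ≤ (p : ℝ) ^ (-n : ℤ) := hx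
    have h2 : ‖(l : ℤ_[p]) + x - y‖ ≤ (p : ℝ) ^ (-n : ℤ) := hx'
    have h3 : ‖((k : ℤ) - (l : ℤ) : ℤ_[p])‖ ≤ (p : ℝ) ^ (-n : ℤ) := by
      have e : ((k : ℤ) - (l : ℤ) : ℤ_[p]) = ((k : ℤ_[p]) + x - y) - ((l : ℤ_[p]) + x - y) := by
        push_cast; ring
      rw [e, sub_eq_add_neg ((k : ℤ_[p]) + x - y)]
      refine (PadicInt.nonarchimedean _ _).trans ?_
      rw [norm_neg]
      exact max_le h1 h2
    have h4 : ((p ^ n : ℕ) : ℤ) ∣ (k : ℤ) - l := by
      have h5 : ‖(((k : ℤ) - (l : ℤ) : ℤ) : ℤ_[p])‖ ≤ (p : ℝ) ^ (-n : ℤ) := by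
        push_cast at h3 ⊢; exact h3
      have h6 := PadicInt.norm_int_le_pow_iff_dvd.1 h5
      exact_mod_cast h6
    rw [Finset.mem_range] at hk hl
    have h7 : (k : ℤ) - l = 0 := by
      apply Int.eq_zero_of_abs_lt_dvd h4
      have hk' : (k : ℤ) < ((p ^ n : ℕ) : ℤ) := by exact_mod_cast hk
      have hl' : (l : ℤ) < ((p ^ n : ℕ) : ℤ) := by exact_mod_cast hl
      rw [abs_lt]
      constructor <;> omega
    omega
  have h1 : ∑ k ∈ Finset.range (p ^ n), mu p (T k) ≤ 1 := by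
    rw [← measure_biUnion_finset (fun k hk l hl hkl => hdis k hk l hl hkl) (fun k _ => hmT k)]
    exact prob_le_one
  simp only [hTm, Finset.sum_const, Finset.card_range, nsmul_eq_mul] at h1
  rw [zpow_neg, zpow_natCast, ENNReal.ofReal_inv_of_pos (by positivity), ENNReal.ofReal_pow hp.le,
    ENNReal.ofReal_natCast]
  rw [ENNReal.le_inv_iff_mul_le, mul_comm]
  exact_mod_cast h1

/-- the measure of a ball -/
lemma mu_ball' (y : ℤ_[p]) (ρ : ℝ) (hρ : 0 < ρ) :
    mu p {x | ‖x - y‖ ≤ ρ} ≤ ENNReal.ofReal (p * ρ) := by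
  have hp1 : (1 : ℝ) < p := by exact_mod_cast (Fact.out : p.Prime).one_lt
  have hp : (0 : ℝ) < p := by linarith
  rcases le_or_gt 1 ρ with h | h
  · refine prob_le_one.trans ?_
    rw [← ENNReal.ofReal_one]
    apply ENNReal.ofReal_le_ofReal
    nlinarith
  · obtain ⟨n, hn1, hn2⟩ := exists_nat_pow_near_of_lt_one hρ h.le (inv_pos.2 hp)
      (inv_lt_one_of_one_lt₀ hp1)
    refine (measure_mono ?_).trans ((mu_ball p y n).trans ?_)
    · intro x hx
      rw [mem_ofPred_eq] at hx ⊢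
      refine hx.trans ?_
      rw [zpow_neg, zpow_natCast, ← inv_pow]
      exact hn2
    · apply ENNReal.ofReal_le_ofReal
      rw [zpow_neg, zpow_natCast, ← inv_pow]
      rw [pow_succ, ← div_eq_mul_inv, div_lt_iff₀ hp] at hn1
      linarith

/-- points of `ℤ_[p]` that are close to a given point of the algebraic closure -/
lemma mu_near (z : PadicAlgCl p) (ρ : ℝ) (hρ : 0 < ρ) :
    mu p {x | ‖((x : ℚ_[p]) : PadicAlgCl p) - z‖ ≤ ρ} ≤ ENNReal.ofReal (p * ρ) := by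
  rcases Set.eq_empty_or_nonempty {x : ℤ_[p] | ‖((x : ℚ_[p]) : PadicAlgCl p) - z‖ ≤ ρ} with h | h
  · rw [h]; simp
  · obtain ⟨y, hy⟩ := h
    refine (measure_mono ?_).trans (mu_ball' p y ρ hρ)
    intro x hx
    rw [mem_ofPred_eq] at hx hy ⊢
    have e : ((x : ℚ_[p]) : PadicAlgCl p) - ((y : ℚ_[p]) : PadicAlgCl p) =
        (((x : ℚ_[p]) : PadicAlgCl p) - z) + -(((y : ℚ_[p]) : PadicAlgCl p) - z) := by ring
    have h1 : ‖((x : ℚ_[p]) : PadicAlgCl p) - ((y : ℚ_[p]) : PadicAlgCl p)‖ ≤ ρ := by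
      rw [e]
      refine (PadicAlgCl.isNonarchimedean p _ _).trans ?_
      rw [norm_neg]
      exact max_le hx hy
    have h2 : ((x : ℚ_[p]) : PadicAlgCl p) - ((y : ℚ_[p]) : PadicAlgCl p) =
        (((x - y : ℤ_[p]) : ℚ_[p]) : PadicAlgCl p) := by
      rw [PadicInt.coe_sub]
      exact (map_sub (algebraMap ℚ_[p] (PadicAlgCl p)) _ _).symm
    rw [h2, PadicAlgCl.norm_extends] at h1
    exact h1

/-- the value of `a X^2 + b X + c` at a `p`-adic integer -/
noncomputable def evp (u : ℤ × ℤ × ℤ) (x : ℤ_[p]) : ℚ_[p] :=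
  (u.1 : ℚ_[p]) * (x : ℚ_[p]) ^ 2 + (u.2.1 : ℚ_[p]) * (x : ℚ_[p]) + (u.2.2 : ℚ_[p])

/-- the square root of the `p`-adic absolute value of the discriminant -/
noncomputable def rdp (u : ℤ × ℤ × ℤ) : ℝ := Real.sqrt ‖((ds u : ℤ) : ℚ_[p])‖

variable {p}

lemma rdp_pos {u : ℤ × ℤ × ℤ} (h : ds u ≠ 0) : 0 < rdp p u := by
  unfold rdp
  apply Real.sqrt_pos.2
  rw [norm_pos_iff]
  exact_mod_cast h

/-- a point with a small value is close to one of two points -/
lemma near_p (u : ℤ × ℤ × ℤ) (hd : ds u ≠ 0) : ∃ y z : PadicAlgCl p, ∀ (x : ℤ_[p]) (t : ℝ),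
    ‖evp p u x‖ ≤ t → ‖((x : ℚ_[p]) : PadicAlgCl p) - y‖ ≤ t / rdp p u ∨
      ‖((x : ℚ_[p]) : PadicAlgCl p) - z‖ ≤ t / rdp p u := by
  have hr := rdp_pos (p := p) hd
  have hcoe : ∀ n : ℤ, ‖(n : PadicAlgCl p)‖ = ‖(n : ℚ_[p])‖ := by
    intro n
    rw [← PadicAlgCl.norm_extends, map_intCast (algebraMap ℚ_[p] (PadicAlgCl p)) n]
  have hev : ∀ x : ℤ_[p], ‖evp p u x‖ = ‖(u.1 : PadicAlgCl p) * ((x : ℚ_[p]) : PadicAlgCl p) ^ 2 +
      (u.2.1 : PadicAlgCl p) * ((x : ℚ_[p]) : PadicAlgCl p) + (u.2.2 : PadicAlgCl p)‖ := by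
    intro x
    rw [← PadicAlgCl.norm_extends]
    congr 1
    unfold evp
    simp only [map_add, map_mul, map_pow, map_intCast]
  by_cases ha : u.1 = 0
  · -- linear
    have hb : u.2.1 ≠ 0 := by
      intro h0
      apply hd
      unfold ds
      rw [ha, h0]; ring
    have hb' : (u.2.1 : PadicAlgCl p) ≠ 0 := by exact_mod_cast hb
    have hrb : rdp p u = ‖(u.2.1 : PadicAlgCl p)‖ := by
      unfold rdp ds
      rw [ha, hcoe]
      simp only [mul_zero, zero_mul, sub_zero, Int.cast_pow, norm_pow]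
      exact Real.sqrt_sq (norm_nonneg _)
    refine ⟨-(u.2.2 : PadicAlgCl p) / u.2.1, 0, fun x t ht => Or.inl ?_⟩
    rw [hev, ha] at ht
    rw [hrb, le_div_iff₀ (norm_pos_iff.2 hb'), ← norm_mul]
    refine le_trans (le_of_eq ?_) ht
    congr 1
    field_simp
    push_cast
    ring
  · have ha' : (u.1 : PadicAlgCl p) ≠ 0 := by exact_mod_cast ha
    obtain ⟨w, hw⟩ := IsAlgClosed.exists_pow_nat_eq ((ds u : ℤ) : PadicAlgCl p) (n := 2) (by norm_num)
    have hw2 : ‖w‖ = rdp p u := by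
      have h1 : ‖w‖ ^ 2 = ‖((ds u : ℤ) : ℚ_[p])‖ := by rw [← norm_pow, hw, hcoe]
      unfold rdp
      rw [← h1, Real.sqrt_sq (norm_nonneg _)]
    set y : PadicAlgCl p := (-(u.2.1 : PadicAlgCl p) + w) / (2 * u.1) with hy
    set z : PadicAlgCl p := (-(u.2.1 : PadicAlgCl p) - w) / (2 * u.1) with hz
    have hfac : ∀ X : PadicAlgCl p, (u.1 : PadicAlgCl p) * X ^ 2 + (u.2.1 : PadicAlgCl p) * X +
        (u.2.2 : PadicAlgCl p) = u.1 * ((X - y) * (X - z)) := by
      intro X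
      have hds : ((ds u : ℤ) : PadicAlgCl p) = (u.2.1 : PadicAlgCl p) ^ 2 - 4 * u.1 * u.2.2 := by
        unfold ds; push_cast; ring
      rw [hds] at hw
      rw [hy, hz]
      field_simp
      linear_combination hw
    have hyz : (u.1 : PadicAlgCl p) * (y - z) = w := by
      rw [hy, hz]
      field_simp
      ring
    refine ⟨y, z, fun x t ht => ?_⟩
    rw [hev, hfac] at ht
    set X : PadicAlgCl p := ((x : ℚ_[p]) : PadicAlgCl p) with hX
    have h1 : ‖w‖ ≤ max ‖(u.1 : PadicAlgCl p) * (X - z)‖ ‖(u.1 : PadicAlgCl p) * (X - y)‖ := by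
      have e : w = (u.1 : PadicAlgCl p) * (X - z) + -((u.1 : PadicAlgCl p) * (X - y)) := by
        rw [← hyz]; ring
      calc ‖w‖ = ‖(u.1 : PadicAlgCl p) * (X - z) + -((u.1 : PadicAlgCl p) * (X - y))‖ := by
            rw [← e]
        _ ≤ _ := by
            refine (PadicAlgCl.isNonarchimedean p _ _).trans ?_
            rw [norm_neg]
    rw [hw2] at h1
    rcases le_max_iff.1 h1 with h | h
    · left
      rw [le_div_iff₀ hr]
      calc ‖X - y‖ * rdp p u ≤ ‖X - y‖ * ‖(u.1 : PadicAlgCl p) * (X - z)‖ :=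
            mul_le_mul_of_nonneg_left h (norm_nonneg _)
        _ = ‖(u.1 : PadicAlgCl p) * ((X - y) * (X - z))‖ := by
            rw [← norm_mul]; congr 1; ring
        _ ≤ t := ht
    · right
      rw [le_div_iff₀ hr]
      calc ‖X - z‖ * rdp p u ≤ ‖X - z‖ * ‖(u.1 : PadicAlgCl p) * (X - y)‖ :=
            mul_le_mul_of_nonneg_left h (norm_nonneg _)
        _ = ‖(u.1 : PadicAlgCl p) * ((X - y) * (X - z))‖ := by
            rw [← norm_mul]; congr 1; ring
        _ ≤ t := ht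

/-- the measure of the sublevel set -/
theorem mu_le (u : ℤ × ℤ × ℤ) (hd : ds u ≠ 0) (t : ℝ) (ht : 0 < t) :
    mu p {x | ‖evp p u x‖ ≤ t} ≤ ENNReal.ofReal (2 * p / rdp p u * t) := by
  obtain ⟨y, z, h⟩ := near_p (p := p) u hd
  have hr := rdp_pos (p := p) hd
  have hsub : {x : ℤ_[p] | ‖evp p u x‖ ≤ t} ⊆
      {x | ‖((x : ℚ_[p]) : PadicAlgCl p) - y‖ ≤ t / rdp p u} ∪
      {x | ‖((x : ℚ_[p]) : PadicAlgCl p) - z‖ ≤ t / rdp p u} := fun x hx => h x t hx
  refine (measure_mono hsub).trans ((measure_union_le _ _).trans ?_)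
  have h1 := mu_near p y (t / rdp p u) (by positivity)
  have h2 := mu_near p z (t / rdp p u) (by positivity)
  refine (add_le_add h1 h2).trans ?_
  rw [← ENNReal.ofReal_add (by positivity) (by positivity)]
  apply ENNReal.ofReal_le_ofReal
  apply le_of_eq
  ring

end Pool.Agent.X124.SA
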