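import Mathlib
import Pool.Agent.X124.MV.Sub

set_option autoImplicit false

/-!
Weighted sums over integral polynomials; the part of the discriminant outside a finite set of
primes.
-/

namespace Pool.Agent.X124.SA

open Finset Pool.Agent.H813R3.Voj Pool.Agent.X124.MV

/-- the part of `n` prime to the primes in `P` -/
def sf (P : Finset ℕ) (n : ℕ) : ℕ :=
  ∏ q ∈ n.primeFactors.filter (fun q => q ∉ P), q ^ n.factorization q

/-- the part of `n` composed of primes in `P` -/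
def sp (P : Finset ℕ) (n : ℕ) : ℕ := ∏ q ∈ P, q ^ n.factorization q

lemma sp_mul_sf (P : Finset ℕ) {n : ℕ} (hn : n ≠ 0) : sp P n * sf P n = n := by
  classical
  have h1 : sp P n = ∏ q ∈ n.primeFactors.filter (fun q => q ∈ P), q ^ n.factorization q := by
    unfold sp
    symm
    refine Finset.prod_subset (fun q hq => (Finset.mem_filter.1 hq).2) fun q hq hq' => ?_
    have : q ∉ n.primeFactors := fun h => hq' (Finset.mem_filter.2 ⟨h, hq⟩)
    rw [← Nat.support_factorization, Finsupp.notMem_support_iff] at this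
    rw [this, pow_zero]
  rw [h1]
  unfold sf
  rw [Finset.prod_filter_mul_prod_filter_not]
  have h2 := Nat.prod_factorization_pow_eq_self hn
  rw [Finsupp.prod, Nat.support_factorization] at h2
  exact h2

lemma sf_pos (P : Finset ℕ) (n : ℕ) : 0 < sf P n :=
  Finset.prod_pos fun q hq =>
    pow_pos (Nat.prime_of_mem_primeFactors (Finset.mem_filter.1 hq).1).pos _

lemma sf_le (P : Finset ℕ) {n : ℕ} (hn : n ≠ 0) : sf P n ≤ n := by
  have h := sp_mul_sf P hn
  exact Nat.le_of_dvd (Nat.pos_of_ne_zero hn) ⟨sp P n, by rw [mul_comm]; exact h.symm⟩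

lemma sf_fact (P : Finset ℕ) (n : ℕ) :
    (sf P n).factorization = n.factorization.filter (fun q => q ∉ P) := by
  classical
  have h1 : sf P n = (n.factorization.filter (fun q => q ∉ P)).prod (fun q e => q ^ e) := by
    unfold sf
    rw [Finsupp.prod, Finsupp.support_filter, Nat.support_factorization]
    refine Finset.prod_congr rfl fun q hq => ?_
    rw [Finsupp.filter_apply_pos (fun q => q ∉ P) n.factorization (Finset.mem_filter.1 hq).2]
  rw [h1]
  apply Nat.prod_pow_factorization_eq_self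
  intro q hq
  rw [Finsupp.support_filter, Finset.mem_filter, Nat.support_factorization] at hq
  exact Nat.prime_of_mem_primeFactors hq.1

lemma op_sf_le (P : Finset ℕ) {n : ℕ} : op (sf P n) ≤ op n := by
  classical
  unfold op
  refine Finset.prod_le_prod_of_subset_of_one_le' ?_ fun q hq _ =>
    (Nat.prime_of_mem_primeFactors (Finset.mem_filter.1 hq).1).one_le
  intro q hq
  rw [Finset.mem_filter] at hq ⊢
  obtain ⟨h1, h2⟩ := hq
  rw [← Nat.support_factorization, sf_fact, Finsupp.support_filter, Finset.mem_filter] at h1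
  rw [sf_fact, Finsupp.filter_apply_pos (fun q => q ∉ P) n.factorization h1.2] at h2
  rw [Nat.support_factorization] at h1
  exact ⟨h1.1, h2⟩

lemma sf_sq (P : Finset ℕ) (b : ℕ) : sf P (b ^ 2) = sf P b ^ 2 := by
  unfold sf
  rw [Nat.primeFactors_pow _ two_ne_zero, ← Finset.prod_pow]
  refine Finset.prod_congr rfl fun q _ => ?_
  rw [Nat.factorization_pow, ← pow_mul]
  simp only [Finsupp.smul_apply, smul_eq_mul]
  rw [mul_comm]

lemma op_sq (b : ℕ) : op (b ^ 2) = 1 := by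
  unfold op
  rw [Finset.prod_eq_one]
  intro q hq
  rw [Finset.mem_filter, Nat.factorization_pow] at hq
  simp only [Finsupp.smul_apply, smul_eq_mul] at hq
  exact absurd hq.2 (by rw [Nat.not_odd_iff_even]; exact even_two_mul _)

/-- sums over the parts prime to `P` -/
theorem sum_sf (P : Finset ℕ) (h : ℕ → ℝ) (h0 : ∀ n, 0 ≤ h n) (K : ℕ) :
    ∑ n ∈ Finset.Icc 1 (2 ^ K), h (sf P n) ≤
      ((K : ℝ) + 1) ^ P.card * ∑ l ∈ Finset.Icc 1 (2 ^ K), h l := by
  classical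
  set φ : ℕ → (P → ℕ) × ℕ := fun n => (fun q => n.factorization q, sf P n) with hφ
  set B : Finset ((P → ℕ) × ℕ) := (Fintype.piFinset fun _ : P => Finset.range (K + 1)) ×ˢ
    Finset.Icc 1 (2 ^ K) with hB
  have hinj : Set.InjOn φ (Finset.Icc 1 (2 ^ K) : Finset ℕ) := by
    intro n hn m hm hnm
    rw [Finset.mem_coe, Finset.mem_Icc] at hn hm
    rw [hφ] at hnm
    simp only [Prod.mk.injEq] at hnm
    rw [← sp_mul_sf P (by omega : n ≠ 0), ← sp_mul_sf P (by omega : m ≠ 0), hnm.2]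
    congr 1
    unfold sp
    refine Finset.prod_congr rfl fun q hq => ?_
    have := congrFun hnm.1 ⟨q, hq⟩
    simp only at this
    rw [this]
  have hsub : (Finset.Icc 1 (2 ^ K)).image φ ⊆ B := by
    intro y hy
    rw [Finset.mem_image] at hy
    obtain ⟨n, hn, rfl⟩ := hy
    rw [Finset.mem_Icc] at hn
    rw [hB, Finset.mem_product, Fintype.mem_piFinset, Finset.mem_Icc]
    refine ⟨fun q => ?_, sf_pos P n, (sf_le P (by omega)).trans hn.2⟩
    rw [hφ, Finset.mem_range]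
    simp only
    by_cases hq : (q : ℕ).Prime
    · have h1 : (q : ℕ) ^ n.factorization q ≤ 2 ^ K :=
        (Nat.le_of_dvd (by omega) (Nat.ordProj_dvd n q)).trans hn.2
      have h2 : 2 ^ n.factorization q ≤ 2 ^ K :=
        (Nat.pow_le_pow_left hq.two_le _).trans h1
      have h3 := (Nat.pow_le_pow_iff_right (by norm_num : 1 < 2)).1 h2
      omega
    · rw [Nat.factorization_eq_zero_of_not_prime _ hq]
      omega
  have h1 : ∑ n ∈ Finset.Icc 1 (2 ^ K), h (sf P n) =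
      ∑ y ∈ (Finset.Icc 1 (2 ^ K)).image φ, h y.2 := by
    rw [Finset.sum_image (fun a ha b hb hab => hinj ha hb hab)]
  rw [h1]
  refine (Finset.sum_le_sum_of_subset_of_nonneg hsub fun y _ _ => h0 _).trans ?_
  rw [hB, Finset.sum_product]
  show ∑ _x ∈ _, ∑ y ∈ Finset.Icc 1 (2 ^ K), h y ≤ _
  rw [Finset.sum_const, nsmul_eq_mul, Fintype.card_piFinset]
  simp only [Finset.card_range, Finset.prod_const, Finset.card_univ, Fintype.card_coe]
  push_cast
  exact le_refl _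

lemma rpow_anti {a b : ℕ} (ha : 0 < a) (hab : a ≤ b) :
    ((b : ℝ)) ^ (-(1 / 2 : ℝ)) ≤ ((a : ℝ)) ^ (-(1 / 2 : ℝ)) :=
  Real.rpow_le_rpow_of_nonpos (by exact_mod_cast ha) (by exact_mod_cast hab) (by norm_num)

/-- the weight -/
noncomputable def gw (P : Finset ℕ) (n : ℕ) : ℝ :=
  (op n : ℝ) ^ (-(1 / 2 : ℝ)) * (sf P n : ℝ) ^ (-(1 / 2 : ℝ))

lemma gw_nonneg (P : Finset ℕ) (n : ℕ) : 0 ≤ gw P n := by unfold gw; positivity

/-- the sum over the polynomials of degree two -/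
theorem sumQ (P : Finset ℕ) (ε : ℝ) (hε : 0 < ε) : ∃ C : ℝ, 0 < C ∧ ∀ k : ℕ,
    ∑ u ∈ (box (2 ^ k)).filter (fun u => ¬ IsSquare (ds u)), gw P (ds u).natAbs ≤
      C * ((2 : ℝ) ^ k) ^ (1 + ε) * ((k : ℝ) + 1) ^ (P.card + 2) := by
  obtain ⟨C, hC, hsum⟩ := sum_box ε hε
  refine ⟨2 * 4 ^ (P.card + 2) * C, by positivity, fun k => ?_⟩
  refine (hsum (2 ^ k) Nat.one_le_two_pow (gw P) (gw_nonneg P)).trans ?_
  have h3 : ∑ n ∈ Finset.Icc 1 (5 * (2 ^ k) ^ 2), gw P n ≤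
      2 * 4 ^ (P.card + 2) * ((k : ℝ) + 1) ^ (P.card + 2) := by
    have hsub : Finset.Icc 1 (5 * (2 ^ k) ^ 2) ⊆ Finset.Icc 1 (2 ^ (2 * k + 3)) := by
      apply Finset.Icc_subset_Icc_right
      have : (2 : ℕ) ^ (2 * k + 3) = 8 * (2 ^ k) ^ 2 := by
        rw [pow_add, mul_comm 2 k, pow_mul]; ring
      rw [this]
      nlinarith [Nat.one_le_two_pow (n := k)]
    refine (Finset.sum_le_sum_of_subset_of_nonneg hsub fun _ _ _ => gw_nonneg P _).trans ?_
    have h4 : ∑ n ∈ Finset.Icc 1 (2 ^ (2 * k + 3)), gw P n ≤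
        ∑ n ∈ Finset.Icc 1 (2 ^ (2 * k + 3)),
          (fun l : ℕ => (op l : ℝ) ^ (-(1 / 2 : ℝ)) * (l : ℝ) ^ (-(1 / 2 : ℝ))) (sf P n) := by
      refine Finset.sum_le_sum fun n _ => ?_
      unfold gw
      exact mul_le_mul_of_nonneg_right (rpow_anti (op_pos _) (op_sf_le P)) (by positivity)
    refine h4.trans ((sum_sf P (fun l : ℕ => (op l : ℝ) ^ (-(1 / 2 : ℝ)) *
      (l : ℝ) ^ (-(1 / 2 : ℝ))) (fun n => by positivity) _).trans ?_)
    have h5 := mul_le_mul_of_nonneg_left (sum_opn (2 * k + 3))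
      (by positivity : (0 : ℝ) ≤ ((2 * k + 3 : ℕ) + 1) ^ P.card)
    refine h5.trans ?_
    push_cast
    have hk : (0 : ℝ) ≤ k := Nat.cast_nonneg k
    have h6 : (2 * (k : ℝ) + 3 + 1) ≤ 4 * ((k : ℝ) + 1) := by linarith
    calc (2 * (k : ℝ) + 3 + 1) ^ P.card * (2 * (2 * (k : ℝ) + 3 + 1) ^ 2)
        = 2 * (2 * (k : ℝ) + 3 + 1) ^ (P.card + 2) := by rw [pow_add]; ring
      _ ≤ 2 * (4 * ((k : ℝ) + 1)) ^ (P.card + 2) := by gcongr
      _ = _ := by rw [mul_pow]; ring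
  push_cast at h3 ⊢
  calc C * ((2 : ℝ) ^ k) ^ (1 + ε) * _ ≤ C * ((2 : ℝ) ^ k) ^ (1 + ε) *
        (2 * 4 ^ (P.card + 2) * ((k : ℝ) + 1) ^ (P.card + 2)) :=
        mul_le_mul_of_nonneg_left h3 (by positivity)
    _ = _ := by ring

lemma sum_inv' (k : ℕ) : ∑ q ∈ Finset.Icc (1 : ℕ) (2 ^ k), (1 / (q : ℝ)) ≤ k + 1 := by
  induction k with
  | zero => simp
  | succ k ih =>
    have hsplit : Finset.Icc (1 : ℕ) (2 ^ (k + 1)) =
        Finset.Icc 1 (2 ^ k) ∪ Finset.Ioc (2 ^ k) (2 ^ (k + 1)) := by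
      ext n
      simp only [Finset.mem_union, Finset.mem_Icc, Finset.mem_Ioc]
      have h1 : 2 ^ k ≤ 2 ^ (k + 1) := Nat.pow_le_pow_right (by norm_num) (by omega)
      have h2 : 1 ≤ 2 ^ k := Nat.one_le_two_pow
      omega
    have hdisj : Disjoint (Finset.Icc (1 : ℕ) (2 ^ k)) (Finset.Ioc (2 ^ k) (2 ^ (k + 1))) := by
      rw [Finset.disjoint_left]
      intro n h1 h2
      rw [Finset.mem_Icc] at h1
      rw [Finset.mem_Ioc] at h2
      omega
    rw [hsplit, Finset.sum_union hdisj]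
    have h1 : ∑ q ∈ Finset.Ioc (2 ^ k : ℕ) (2 ^ (k + 1)), (1 / (q : ℝ)) ≤
        ∑ q ∈ Finset.Ioc (2 ^ k : ℕ) (2 ^ (k + 1)), (1 / (2 : ℝ) ^ k) := by
      refine Finset.sum_le_sum fun q hq => ?_
      rw [Finset.mem_Ioc] at hq
      apply one_div_le_one_div_of_le (by positivity)
      exact_mod_cast hq.1.le
    have h2 : ∑ q ∈ Finset.Ioc (2 ^ k : ℕ) (2 ^ (k + 1)), (1 / (2 : ℝ) ^ k) = 1 := by
      rw [Finset.sum_const, Nat.card_Ioc, nsmul_eq_mul]
      have : 2 ^ (k + 1) - 2 ^ k = 2 ^ k := by rw [pow_succ]; omega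
      rw [this]
      push_cast
      field_simp
    push_cast
    linarith

/-- the sum over the polynomials of degree one -/
theorem sumL (P : Finset ℕ) (k : ℕ) :
    ∑ u ∈ (box (2 ^ k)).filter (fun u => u.1 = 0 ∧ u.2.1 ≠ 0), gw P (ds u).natAbs ≤
      6 * ((2 : ℝ) ^ k) * ((k : ℝ) + 1) ^ (P.card + 1) := by
  classical
  set N : ℕ := 2 ^ k with hN
  set h : ℤ → ℝ := fun b => 1 / (sf P b.natAbs : ℝ) with hh
  have hval : ∀ u ∈ (box N).filter (fun u => u.1 = 0 ∧ u.2.1 ≠ 0),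
      gw P (ds u).natAbs = h u.2.1 := by
    intro u hu
    obtain ⟨-, h1, h2⟩ := Finset.mem_filter.1 hu
    have e : (ds u).natAbs = u.2.1.natAbs ^ 2 := by
      unfold ds
      rw [h1, mul_zero, zero_mul, sub_zero, Int.natAbs_pow]
    have hs : (0 : ℝ) < sf P u.2.1.natAbs := by exact_mod_cast sf_pos P _
    unfold gw
    rw [e, op_sq, sf_sq, Nat.cast_one, Real.one_rpow, one_mul, hh]
    push_cast
    rw [← Real.rpow_natCast, ← Real.rpow_mul hs.le]
    norm_num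
    rw [Real.rpow_neg_one]
  rw [Finset.sum_congr rfl hval]
  have hh0 : ∀ b, 0 ≤ h b := fun b => by rw [hh]; positivity
  set T : Finset (ℤ × ℤ × ℤ) := {0} ×ˢ ((Finset.Icc (-(N : ℤ)) N).erase 0 ×ˢ
    Finset.Icc (-(N : ℤ)) N) with hT
  have hsub : (box N).filter (fun u => u.1 = 0 ∧ u.2.1 ≠ 0) ⊆ T := by
    intro u hu
    obtain ⟨hb, h1, h2⟩ := Finset.mem_filter.1 hu
    rw [mem_box] at hb
    rw [hT, Finset.mem_product, Finset.mem_product, Finset.mem_singleton, Finset.mem_erase,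
      Finset.mem_Icc, Finset.mem_Icc, ← abs_le, ← abs_le]
    exact ⟨h1, ⟨h2, hb.2.1⟩, hb.2.2⟩
  refine (Finset.sum_le_sum_of_subset_of_nonneg hsub fun u _ _ => hh0 _).trans ?_
  have h2 : ∑ u ∈ T, h u.2.1 = ((Finset.Icc (-(N : ℤ)) N).card : ℝ) *
      ∑ b ∈ (Finset.Icc (-(N : ℤ)) N).erase 0, h b := by
    rw [hT, Finset.sum_product, Finset.sum_singleton, Finset.sum_product]
    simp only [Finset.sum_const, nsmul_eq_mul]
    rw [← Finset.mul_sum]
  rw [h2]
  have h3 := sum_symm_le' h hh0 (fun b => by rw [hh]; simp) N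
  have h4 : ∑ n ∈ Finset.Icc 1 N, h (n : ℤ) ≤ ((k : ℝ) + 1) ^ P.card * ((k : ℝ) + 1) := by
    have e : ∑ n ∈ Finset.Icc 1 N, h (n : ℤ) =
        ∑ n ∈ Finset.Icc 1 (2 ^ k), (fun l : ℕ => 1 / (l : ℝ)) (sf P n) := by
      refine Finset.sum_congr (by rw [hN]) fun n _ => ?_
      rw [hh]
      simp
    rw [e]
    refine (sum_sf P (fun l : ℕ => 1 / (l : ℝ)) (fun n => by positivity) k).trans ?_
    exact mul_le_mul_of_nonneg_left (sum_inv' k) (by positivity)
  have h5 : ((Finset.Icc (-(N : ℤ)) N).card : ℝ) ≤ 3 * 2 ^ k := by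
    rw [Int.card_Icc]
    have : ((N : ℤ) + 1 - -(N : ℤ)).toNat = 2 * N + 1 := by omega
    rw [this, hN]
    push_cast
    have : (1 : ℝ) ≤ 2 ^ k := one_le_pow₀ (by norm_num)
    linarith
  have h6 : 0 ≤ ∑ b ∈ (Finset.Icc (-(N : ℤ)) N).erase 0, h b := Finset.sum_nonneg fun b _ => hh0 b
  calc _ ≤ (3 * 2 ^ k) * (2 * (((k : ℝ) + 1) ^ P.card * ((k : ℝ) + 1))) :=
        mul_le_mul h5 (by linarith) h6 (by positivity)
    _ = _ := by rw [pow_succ]; ring

end Pool.Agent.X124.SA
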