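import Mathlib
import Pool.Agent.X124.SA.Sum
import Pool.Agent.X124.SA.Pad

set_option autoImplicit false

/-!
Primitive irreducible polynomials of degree at most two, summability of the weights, and the
product of the local absolute values of the discriminant.
-/

namespace Pool.Agent.X124.SA

open Finset Pool.Agent.H813R3.Voj Pool.Agent.X124.MV

/-- primitive, and irreducible over `ℚ` of degree one or two -/
def OK (u : ℤ × ℤ × ℤ) : Prop :=
  (∀ q : ℕ, q.Prime → ¬ ((q : ℤ) ∣ u.1 ∧ (q : ℤ) ∣ u.2.1 ∧ (q : ℤ) ∣ u.2.2)) ∧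
    (¬ IsSquare (ds u) ∨ (u.1 = 0 ∧ u.2.1 ≠ 0))

lemma OK.ds_ne {u : ℤ × ℤ × ℤ} (h : OK u) : ds u ≠ 0 := by
  rcases h.2 with h | ⟨h1, h2⟩
  · exact (ne_of_not_sq h).2
  · unfold ds
    rw [h1]
    simpa using h2

lemma OK.one_le {u : ℤ × ℤ × ℤ} (h : OK u) : 1 ≤ hn u := by
  rcases h.2 with h | ⟨h1, h2⟩
  · exact one_le_hn h
  · unfold hn
    exact le_max_of_le_right (le_max_of_le_left (Int.natAbs_pos.2 h2))

/-- the summability of the weights -/
theorem summW (P : Finset ℕ) (ε : ℝ) (hε : 0 < ε) : Summable fun u : {u : ℤ × ℤ × ℤ // OK u} =>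
    (hn u.1 : ℝ) ^ (-(1 + ε)) * gw P (ds u.1).natAbs := by
  classical
  obtain ⟨C, hC, hQ⟩ := sumQ P (ε / 2) (by positivity)
  set r : ℝ := (2 : ℝ) ^ (-(ε / 2)) with hr
  have hr0 : 0 < r := by positivity
  have hr1 : r < 1 := Real.rpow_lt_one_of_one_lt_of_neg (by norm_num) (by linarith)
  have hrk : ∀ k : ℕ, ((2 : ℝ) ^ k) ^ (-(ε / 2)) = r ^ k := by
    intro k
    rw [hr, ← Real.rpow_natCast, ← Real.rpow_mul (by norm_num), ← Real.rpow_natCast,
      ← Real.rpow_mul (by norm_num), mul_comm]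
  set b : ℕ → ℝ := fun k => (2 : ℝ) ^ (1 + ε) * (C + 6) * ((k : ℝ) + 1) ^ (P.card + 2) * r ^ k
    with hb
  have hbs : Summable b := summ r hr0 hr1 _ _
  have hb0 : ∀ k, 0 ≤ b k := fun k => by rw [hb]; positivity
  set f : {u : ℤ × ℤ × ℤ // OK u} → ℝ := fun u =>
    (hn u.1 : ℝ) ^ (-(1 + ε)) * gw P (ds u.1).natAbs with hf
  have hf0 : ∀ u, 0 ≤ f u := fun u => mul_nonneg (by positivity) (gw_nonneg P _)
  refine summable_of_sum_le (c := ∑' k, b k) hf0 fun A => ?_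
  set κ : {u : ℤ × ℤ × ℤ // OK u} → ℕ := fun u => Nat.clog 2 (hn u.1) with hκ
  rw [← Finset.sum_fiberwise_of_maps_to (s := A) (t := A.image κ)
    (fun u hu => Finset.mem_image_of_mem κ hu)]
  refine le_trans (Finset.sum_le_sum fun k _ => ?_) (hbs.sum_le_tsum (A.image κ) fun k _ => hb0 k)
  -- one dyadic range
  set A' := A.filter fun u => κ u = k with hA'
  have h1 : ∀ u ∈ A', f u ≤ (2 : ℝ) ^ (1 + ε) * ((2 : ℝ) ^ k) ^ (-(1 + ε)) *
      gw P (ds u.1).natAbs := by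
    intro u hu
    have hk := (Finset.mem_filter.1 hu).2
    have hn1 := u.2.one_le
    rw [hf]
    refine mul_le_mul_of_nonneg_right ?_ (gw_nonneg P _)
    have h2 : 2 ^ k ≤ 2 * hn u.1 := by
      rw [← hk, hκ]
      simp only
      rcases Nat.lt_or_ge 1 (hn u.1) with h | h
      · have := Nat.pow_pred_clog_lt_self (by norm_num : 1 < 2) h
        have h4 : Nat.clog 2 (hn u.1) = (Nat.clog 2 (hn u.1)).pred + 1 :=
          (Nat.succ_pred_eq_of_pos (Nat.clog_pos (by norm_num) h)).symm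
        rw [h4, pow_succ]
        omega
      · have : hn u.1 = 1 := le_antisymm h hn1
        rw [this]; simp
    have h3 : (2 : ℝ) ^ k ≤ 2 * hn u.1 := by exact_mod_cast h2
    have h4 : (2 * (hn u.1 : ℝ)) ^ (-(1 + ε)) ≤ ((2 : ℝ) ^ k) ^ (-(1 + ε)) :=
      Real.rpow_le_rpow_of_nonpos (by positivity) h3 (by linarith)
    rw [Real.mul_rpow (by norm_num) (Nat.cast_nonneg _)] at h4
    calc (hn u.1 : ℝ) ^ (-(1 + ε)) = (2 : ℝ) ^ (1 + ε) *
          ((2 : ℝ) ^ (-(1 + ε)) * (hn u.1 : ℝ) ^ (-(1 + ε))) := by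
          rw [← mul_assoc, ← Real.rpow_add (by norm_num), add_neg_cancel, Real.rpow_zero, one_mul]
      _ ≤ _ := mul_le_mul_of_nonneg_left h4 (by positivity)
  refine (Finset.sum_le_sum h1).trans ?_
  rw [← Finset.mul_sum]
  have h5 : ∑ u ∈ A', gw P (ds u.1).natAbs ≤
      ∑ v ∈ (box (2 ^ k)).filter (fun u => ¬ IsSquare (ds u)), gw P (ds v).natAbs +
      ∑ v ∈ (box (2 ^ k)).filter (fun u => u.1 = 0 ∧ u.2.1 ≠ 0), gw P (ds v).natAbs := by
    have h6 : ∑ u ∈ A', gw P (ds u.1).natAbs =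
        ∑ v ∈ A'.map (Function.Embedding.subtype OK), gw P (ds v).natAbs := by
      rw [Finset.sum_map]
      rfl
    rw [h6]
    have hsub : A'.map (Function.Embedding.subtype OK) ⊆
        (box (2 ^ k)).filter (fun u => ¬ IsSquare (ds u)) ∪
        (box (2 ^ k)).filter (fun u => u.1 = 0 ∧ u.2.1 ≠ 0) := by
      intro v hv
      rw [Finset.mem_map] at hv
      obtain ⟨u, hu, rfl⟩ := hv
      have hk := (Finset.mem_filter.1 hu).2
      have hle : hn u.1 ≤ 2 ^ k := by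
        rw [← hk, hκ]
        exact Nat.le_pow_clog (by norm_num) _
      have hbox := mem_box_of_hn hle
      rw [Finset.mem_union, Finset.mem_filter, Finset.mem_filter]
      rcases u.2.2 with h | h
      · exact Or.inl ⟨hbox, h⟩
      · exact Or.inr ⟨hbox, h⟩
    refine (Finset.sum_le_sum_of_subset_of_nonneg hsub fun v _ _ => gw_nonneg P _).trans ?_
    have h7 := Finset.sum_union_inter (s₁ := (box (2 ^ k)).filter (fun u => ¬ IsSquare (ds u)))
      (s₂ := (box (2 ^ k)).filter (fun u => u.1 = 0 ∧ u.2.1 ≠ 0))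
      (f := fun v => gw P (ds v).natAbs)
    have h8 : 0 ≤ ∑ v ∈ (box (2 ^ k)).filter (fun u => ¬ IsSquare (ds u)) ∩
        (box (2 ^ k)).filter (fun u => u.1 = 0 ∧ u.2.1 ≠ 0), gw P (ds v).natAbs :=
      Finset.sum_nonneg fun v _ => gw_nonneg P _
    linarith
  have h9 := add_le_add (hQ k) (sumL P k)
  have h10 : C * ((2 : ℝ) ^ k) ^ (1 + ε / 2) * ((k : ℝ) + 1) ^ (P.card + 2) +
      6 * ((2 : ℝ) ^ k) * ((k : ℝ) + 1) ^ (P.card + 1) ≤
      (C + 6) * ((2 : ℝ) ^ k) ^ (1 + ε / 2) * ((k : ℝ) + 1) ^ (P.card + 2) := by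
    have hk : (0 : ℝ) ≤ k := Nat.cast_nonneg k
    have e1 : (2 : ℝ) ^ k ≤ ((2 : ℝ) ^ k) ^ (1 + ε / 2) := by
      calc (2 : ℝ) ^ k = ((2 : ℝ) ^ k) ^ (1 : ℝ) := (Real.rpow_one _).symm
        _ ≤ _ := Real.rpow_le_rpow_of_exponent_le (one_le_pow₀ (by norm_num)) (by linarith)
    have e2 : ((k : ℝ) + 1) ^ (P.card + 1) ≤ ((k : ℝ) + 1) ^ (P.card + 2) :=
      pow_le_pow_right₀ (by linarith) (by omega)
    have e3 : (2 : ℝ) ^ k * ((k : ℝ) + 1) ^ (P.card + 1) ≤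
        ((2 : ℝ) ^ k) ^ (1 + ε / 2) * ((k : ℝ) + 1) ^ (P.card + 2) :=
      mul_le_mul e1 e2 (by positivity) (by positivity)
    nlinarith
  calc (2 : ℝ) ^ (1 + ε) * ((2 : ℝ) ^ k) ^ (-(1 + ε)) * ∑ u ∈ A', gw P (ds u.1).natAbs
      ≤ (2 : ℝ) ^ (1 + ε) * ((2 : ℝ) ^ k) ^ (-(1 + ε)) *
        ((C + 6) * ((2 : ℝ) ^ k) ^ (1 + ε / 2) * ((k : ℝ) + 1) ^ (P.card + 2)) :=
        mul_le_mul_of_nonneg_left (h5.trans (h9.trans h10)) (by positivity)
    _ = (2 : ℝ) ^ (1 + ε) * (C + 6) * ((k : ℝ) + 1) ^ (P.card + 2) *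
        (((2 : ℝ) ^ k) ^ (-(1 + ε)) * ((2 : ℝ) ^ k) ^ (1 + ε / 2)) := by ring
    _ = b k := by
        rw [← Real.rpow_add (by positivity), hb]
        simp only
        rw [← hrk]
        congr 2
        ring

/-- the `p`-adic absolute value of an integer -/
lemma norm_int (p : ℕ) [Fact p.Prime] {n : ℤ} (hn : n ≠ 0) :
    ‖(n : ℚ_[p])‖ = ((p : ℝ) ^ n.natAbs.factorization p)⁻¹ := by
  have h1 : ‖(n : ℚ_[p])‖ = ‖((n : ℚ) : ℚ_[p])‖ := by simp
  rw [h1, Padic.eq_padicNorm, padicNorm.eq_zpow_of_nonzero (by exact_mod_cast hn),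
    padicValRat.of_int, padicValInt, ← Nat.factorization_def _ (Fact.out : p.Prime)]
  push_cast
  rw [zpow_neg, zpow_natCast]

/-- the product of the local absolute values of the discriminant -/
lemma prod_norm {r : ℕ} (p : Fin r → ℕ) [∀ i, Fact (p i).Prime] (hp : Function.Injective p)
    {n : ℤ} (hn : n ≠ 0) :
    (n.natAbs : ℝ) * ∏ i, ‖(n : ℚ_[p i])‖ = sf (Finset.univ.image p) n.natAbs := by
  classical
  have hn' : n.natAbs ≠ 0 := Int.natAbs_ne_zero.2 hn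
  have h1 : ∏ i, ‖(n : ℚ_[p i])‖ = ((sp (Finset.univ.image p) n.natAbs : ℕ) : ℝ)⁻¹ := by
    unfold sp
    rw [Finset.prod_image (fun a _ b _ h => hp h)]
    push_cast
    rw [← Finset.prod_inv_distrib]
    exact Finset.prod_congr rfl fun i _ => norm_int (p i) hn
  have h2 := sp_mul_sf (Finset.univ.image p) hn'
  have h3 : (sp (Finset.univ.image p) n.natAbs : ℝ) ≠ 0 := by
    have : sp (Finset.univ.image p) n.natAbs ≠ 0 := by
      intro h; rw [h, zero_mul] at h2; exact hn' h2.symm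
    exact_mod_cast this
  have h4 : (sp (Finset.univ.image p) n.natAbs : ℝ) * sf (Finset.univ.image p) n.natAbs =
      n.natAbs := by exact_mod_cast h2
  rw [h1, ← h4]
  field_simp

/-- the product of the local square roots -/
lemma prod_rd {r : ℕ} (p : Fin r → ℕ) [∀ i, Fact (p i).Prime] (hp : Function.Injective p)
    {u : ℤ × ℤ × ℤ} (hu : ds u ≠ 0) :
    MV.rd u * ∏ i, rdp (p i) u = Real.sqrt (sf (Finset.univ.image p) (ds u).natAbs) := by
  unfold MV.rd rdp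
  rw [← prod_norm p hp hu, Real.sqrt_mul (Nat.cast_nonneg _)]
  congr 1
  rw [Real.sqrt_eq_rpow]
  simp only [Real.sqrt_eq_rpow]
  rw [Real.finsetProd_rpow _ _ (fun i _ => norm_nonneg _)]

end Pool.Agent.X124.SA
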