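import Mathlib
import Pool.Agent.X124.SA.Wt
import Pool.Agent.X124.SA.Sep

set_option autoImplicit false

/-!
The almost everywhere lower bound for the product of the values at all places.
-/

namespace Pool.Agent.X124.SA

open MeasureTheory Set Pool.Agent.H813R3.Voj Pool.Agent.X124.MV

attribute [local instance] msZ bsZ

/-- the normalised value at a real number -/
noncomputable def lam (u : ℤ × ℤ × ℤ) (x : ℝ) : ℝ := |ev u x| / hn u

/-- the normalised square root of the discriminant -/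
noncomputable def del (u : ℤ × ℤ × ℤ) : ℝ := MV.rd u / hn u

lemma OK.hn_pos {u : ℤ × ℤ × ℤ} (h : OK u) : (0 : ℝ) < hn u := by exact_mod_cast h.one_le

lemma OK.del_pos {u : ℤ × ℤ × ℤ} (h : OK u) : 0 < del u :=
  div_pos (MV.rd_pos h.ds_ne) h.hn_pos

/-- one place -/
theorem loc {E : Type*} [MeasurableSpace E] (μ : Measure E) [IsFiniteMeasure μ] (m : ℝ)
    (hm0 : 0 ≤ m) (hm : μ univ ≤ ENNReal.ofReal m) (s : ℝ) (hs0 : 0 < s) (hs1 : s < 1) (A : ℝ)
    (hA : 0 < A) (q : ℕ) (g : E → ℝ) (hg : Measurable g) (h0 : ∀ x, 0 ≤ g x) (δ : ℝ)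
    (hδ : 0 < δ) (h : ∀ t, 0 < t → μ {x | g x ≤ t} ≤ ENNReal.ofReal (A / δ * t)) :
    Integrable (fun x : Fin q → E => δ ^ (-s) * ∏ j, (1 + δ ^ s * (g (x j)) ^ (-s)))
      (Measure.pi fun _ => μ) ∧
    ∫ x : Fin q → E, δ ^ (-s) * ∏ j, (1 + δ ^ s * (g (x j)) ^ (-s)) ∂(Measure.pi fun _ => μ) ≤
      δ ^ (-s) * (m + (m + s / (1 - s)) * A ^ s) ^ q := by
  obtain ⟨hi, hle⟩ := moment μ m hm hm0 g hg h0 (A / δ) (by positivity) h s hs0 hs1
  set G : E → ℝ := fun x => 1 + δ ^ s * (g x) ^ (-s) with hG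
  have hGi : Integrable G μ := (integrable_const 1).add (hi.const_mul _)
  have hGv : ∫ x, G x ∂μ ≤ m + (m + s / (1 - s)) * A ^ s := by
    rw [hG]
    rw [integral_add (integrable_const 1) (hi.const_mul _), integral_const_mul, integral_const,
      smul_eq_mul, mul_one]
    have h1 : μ.real univ ≤ m := by
      rw [measureReal_def]
      exact ENNReal.toReal_le_of_le_ofReal hm0 hm
    have h2 : δ ^ s * ∫ x, (g x) ^ (-s) ∂μ ≤ (m + s / (1 - s)) * A ^ s := by
      calc δ ^ s * ∫ x, (g x) ^ (-s) ∂μ ≤ δ ^ s * ((m + s / (1 - s)) * (A / δ) ^ s) :=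
            mul_le_mul_of_nonneg_left hle (by positivity)
        _ = _ := by
            rw [Real.div_rpow hA.le hδ.le]
            have : δ ^ s ≠ 0 := by positivity
            field_simp
    linarith
  have hG0 : ∀ x, 0 ≤ G x := fun x => by
    have := Real.rpow_nonneg (h0 x) (-s)
    rw [hG]
    positivity
  refine ⟨?_, ?_⟩
  · exact (Integrable.fintype_prod_dep (fun _ : Fin q => hGi)).const_mul _
  · rw [integral_const_mul]
    refine mul_le_mul_of_nonneg_left ?_ (by positivity)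
    have h3 := integral_fintype_prod_eq_prod (ι := Fin q) (μ := fun _ => μ) (fun _ => G)
    rw [h3, Finset.prod_const, Finset.card_univ, Fintype.card_fin]
    exact pow_le_pow_left₀ (integral_nonneg hG0) hGv q

lemma vol_le' (u : ℤ × ℤ × ℤ) (hu : OK u) (t : ℝ) (ht : 0 < t) :
    volume {x : ℝ | |ev u x| ≤ t} ≤ ENNReal.ofReal (8 * t / MV.rd u) := by
  rcases hu.2 with h | ⟨h1, h2⟩
  · exact vol_le u h t
  · have hb : (u.2.1 : ℝ) ≠ 0 := by exact_mod_cast h2
    have hrb : MV.rd u = |(u.2.1 : ℝ)| := by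
      have h3 := MV.rd_sq u
      unfold ds at h3
      rw [h1] at h3
      push_cast at h3
      rw [zero_mul, sub_zero, abs_pow] at h3
      have h4 : 0 ≤ MV.rd u := Real.sqrt_nonneg _
      exact (pow_left_inj₀ h4 (abs_nonneg _) two_ne_zero).1 h3
    have hb0 : 0 < |(u.2.1 : ℝ)| := abs_pos.2 hb
    have hsub : {x : ℝ | |ev u x| ≤ t} ⊆
        Metric.closedBall (-(u.2.2 : ℝ) / u.2.1) (t / |(u.2.1 : ℝ)|) := by
      intro x hx
      rw [mem_ofPred_eq] at hx
      rw [Metric.mem_closedBall, Real.dist_eq]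
      have h3 : x - -(u.2.2 : ℝ) / u.2.1 = ev u x / u.2.1 := by
        unfold MV.ev
        rw [h1]
        field_simp
        push_cast
        ring
      rw [h3, abs_div]
      exact div_le_div_of_nonneg_right hx hb0.le
    refine (measure_mono hsub).trans ?_
    rw [Real.volume_closedBall, hrb]
    apply ENNReal.ofReal_le_ofReal
    rw [mul_div_assoc]
    have : 0 ≤ t / |(u.2.1 : ℝ)| := by positivity
    linarith

/-- the function of the real place -/
noncomputable def FR (s : ℝ) {q : ℕ} (u : ℤ × ℤ × ℤ) (x : Fin q → ℝ) : ℝ :=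
  (del u) ^ (-s) * ∏ j, (1 + (del u) ^ s * (lam u (x j)) ^ (-s))

/-- the function of a finite place -/
noncomputable def FP (p : ℕ) [Fact p.Prime] (s : ℝ) {q : ℕ} (u : ℤ × ℤ × ℤ)
    (x : Fin q → ℤ_[p]) : ℝ :=
  (rdp p u) ^ (-s) * ∏ j, (1 + (rdp p u) ^ s * ‖evp p u (x j)‖ ^ (-s))

lemma lam_nonneg (u : ℤ × ℤ × ℤ) (x : ℝ) : 0 ≤ lam u x := by unfold lam; positivity

lemma del_nonneg (u : ℤ × ℤ × ℤ) : 0 ≤ del u := by unfold del MV.rd; positivity

lemma rdp_nonneg (p : ℕ) [Fact p.Prime] (u : ℤ × ℤ × ℤ) : 0 ≤ rdp p u := Real.sqrt_nonneg _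

lemma FR_nonneg (s : ℝ) {q : ℕ} (u : ℤ × ℤ × ℤ) (x : Fin q → ℝ) : 0 ≤ FR s u x := by
  unfold FR
  have h1 := Real.rpow_nonneg (del_nonneg u) (-s)
  have h2 := Real.rpow_nonneg (del_nonneg u) s
  refine mul_nonneg h1 (Finset.prod_nonneg fun j _ => ?_)
  have h3 := Real.rpow_nonneg (lam_nonneg u (x j)) (-s)
  positivity

lemma FP_nonneg (p : ℕ) [Fact p.Prime] (s : ℝ) {q : ℕ} (u : ℤ × ℤ × ℤ) (x : Fin q → ℤ_[p]) :
    0 ≤ FP p s u x := by
  unfold FP
  have h1 := Real.rpow_nonneg (rdp_nonneg p u) (-s)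
  have h2 := Real.rpow_nonneg (rdp_nonneg p u) s
  refine mul_nonneg h1 (Finset.prod_nonneg fun j _ => ?_)
  have h3 := Real.rpow_nonneg (norm_nonneg (evp p u (x j))) (-s)
  positivity

lemma FR_int (s : ℝ) (hs0 : 0 < s) (hs1 : s < 1) (q B : ℕ) : ∃ K : ℝ, 0 ≤ K ∧
    ∀ u, OK u → Integrable (fun x : Fin q → ℝ => FR s u x)
      (Measure.pi fun _ => volume.restrict (Icc (-(B : ℝ)) B)) ∧
      ∫ x : Fin q → ℝ, FR s u x ∂(Measure.pi fun _ => volume.restrict (Icc (-(B : ℝ)) B)) ≤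
        (del u) ^ (-s) * K := by
  have hs2 : 0 < 1 - s := by linarith
  refine ⟨(2 * B + (2 * B + s / (1 - s)) * 8 ^ s) ^ q, by positivity, fun u hu => ?_⟩
  refine loc (volume.restrict (Icc (-(B : ℝ)) B)) (2 * B) (by positivity) ?_ s hs0 hs1 8
    (by norm_num) q (lam u) ?_ (lam_nonneg u) (del u) hu.del_pos ?_
  · rw [Measure.restrict_apply_univ, Real.volume_Icc]
    apply ENNReal.ofReal_le_ofReal
    linarith
  · have : Continuous (lam u) := by
      unfold lam MV.ev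
      fun_prop
    exact this.measurable
  · intro t ht
    refine (Measure.restrict_apply_le _ _).trans ?_
    have hn0 := hu.hn_pos
    have hsub : {x : ℝ | lam u x ≤ t} ⊆ {x | |ev u x| ≤ t * hn u} := by
      intro x hx
      rw [mem_ofPred_eq] at hx ⊢
      unfold lam at hx
      rwa [div_le_iff₀ hn0] at hx
    refine (measure_mono hsub).trans ((vol_le' u hu _ (by positivity)).trans (le_of_eq ?_))
    congr 1
    have := MV.rd_pos hu.ds_ne
    unfold del
    field_simp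

lemma FP_int (p : ℕ) [Fact p.Prime] (s : ℝ) (hs0 : 0 < s) (hs1 : s < 1) (q : ℕ) :
    ∃ K : ℝ, 0 ≤ K ∧ ∀ u, OK u → Integrable (fun x : Fin q → ℤ_[p] => FP p s u x)
      (Measure.pi fun _ => mu p) ∧
      ∫ x : Fin q → ℤ_[p], FP p s u x ∂(Measure.pi fun _ => mu p) ≤ (rdp p u) ^ (-s) * K := by
  have hs2 : 0 < 1 - s := by linarith
  have hp : (0 : ℝ) < p := by exact_mod_cast (Fact.out : p.Prime).pos
  refine ⟨(1 + (1 + s / (1 - s)) * (2 * p) ^ s) ^ q, by positivity, fun u hu => ?_⟩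
  refine loc (mu p) 1 zero_le_one ?_ s hs0 hs1 (2 * p) (by positivity) q
    (fun x => ‖evp p u x‖) ?_ (fun x => norm_nonneg _) (rdp p u) (rdp_pos hu.ds_ne) ?_
  · rw [ENNReal.ofReal_one]; exact prob_le_one
  · have h1 : Continuous (fun x : ℤ_[p] => (x : ℚ_[p])) := continuous_subtype_val
    have : Continuous (fun x : ℤ_[p] => ‖evp p u x‖) := by
      unfold evp
      fun_prop
    exact this.measurable
  · intro t ht
    exact mu_le u hu.ds_ne t ht

lemma wt_gw (s ε : ℝ) (hs0 : 0 < s) (hs1 : s < 1) (P : Finset ℕ) {u : ℤ × ℤ × ℤ} (hu : OK u) :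
    (hn u : ℝ) ^ (-(2 + ε)) * wt u *
      (Real.sqrt (sf P (ds u).natAbs) / hn u) ^ (-s) ≤
      5 * ((hn u : ℝ) ^ (-(1 + ε)) * gw P (ds u).natAbs) := by
  have hn0 := hu.hn_pos
  have hn1 : (1 : ℝ) ≤ hn u := by exact_mod_cast hu.one_le
  set f : ℝ := (sf P (ds u).natAbs : ℝ) with hf
  have hf0 : 0 < f := by rw [hf]; exact_mod_cast sf_pos P _
  have hfle : f ≤ 5 * (hn u : ℝ) ^ 2 := by
    have h1 := sf_le P (Int.natAbs_ne_zero.2 hu.ds_ne)
    have h2 := ds_le (mem_box_of_hn (le_refl (hn u)))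
    rw [hf]
    exact_mod_cast h1.trans h2
  have e1 : (Real.sqrt f / hn u) ^ (-s) = f ^ (-(s / 2)) * (hn u : ℝ) ^ s := by
    rw [Real.div_rpow (Real.sqrt_nonneg _) hn0.le, Real.sqrt_eq_rpow, ← Real.rpow_mul hf0.le,
      Real.rpow_neg hn0.le, div_inv_eq_mul]
    congr 2
    ring
  have e2 : f ^ (-(s / 2)) ≤ f ^ (-(1 / 2 : ℝ)) * (5 * (hn u : ℝ) ^ (1 - s)) := by
    have e3 : f ^ (-(s / 2)) = f ^ (-(1 / 2 : ℝ)) * f ^ ((1 - s) / 2) := by
      rw [← Real.rpow_add hf0]; congr 1; ring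
    rw [e3]
    refine mul_le_mul_of_nonneg_left ?_ (by positivity)
    have e4 : f ^ ((1 - s) / 2) ≤ (5 * (hn u : ℝ) ^ 2) ^ ((1 - s) / 2) :=
      Real.rpow_le_rpow hf0.le hfle (by linarith)
    refine e4.trans ?_
    rw [Real.mul_rpow (by norm_num) (by positivity), ← Real.rpow_natCast, ← Real.rpow_mul hn0.le]
    have e5 : ((2 : ℕ) : ℝ) * ((1 - s) / 2) = 1 - s := by push_cast; ring
    rw [e5]
    refine mul_le_mul_of_nonneg_right ?_ (by positivity)
    calc (5 : ℝ) ^ ((1 - s) / 2) ≤ 5 ^ (1 : ℝ) :=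
          Real.rpow_le_rpow_of_exponent_le (by norm_num) (by linarith)
      _ = 5 := Real.rpow_one 5
  have hw : 0 ≤ wt u := (wt_pos u).le
  have e6 : (hn u : ℝ) ^ (-(2 + ε)) * (hn u : ℝ) ^ s * (hn u : ℝ) ^ (1 - s) =
      (hn u : ℝ) ^ (-(1 + ε)) := by
    rw [← Real.rpow_add hn0, ← Real.rpow_add hn0]
    congr 1
    ring
  rw [e1]
  calc (hn u : ℝ) ^ (-(2 + ε)) * wt u * (f ^ (-(s / 2)) * (hn u : ℝ) ^ s)
      ≤ (hn u : ℝ) ^ (-(2 + ε)) * wt u *
        ((f ^ (-(1 / 2 : ℝ)) * (5 * (hn u : ℝ) ^ (1 - s))) * (hn u : ℝ) ^ s) := by gcongr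
    _ = 5 * (((hn u : ℝ) ^ (-(2 + ε)) * (hn u : ℝ) ^ s * (hn u : ℝ) ^ (1 - s)) *
        (wt u * f ^ (-(1 / 2 : ℝ)))) := by ring
    _ = _ := by rw [e6]; rfl

/-- **All places.** -/
theorem ae_main (s ε : ℝ) (hs0 : 0 < s) (hs1 : s < 1) (hε : 0 < ε) (q : ℕ) {r : ℕ}
    (p : Fin r → ℕ) [∀ i, Fact (p i).Prime] (hp : Function.Injective p) (n : Fin r → ℕ) :
    ∀ᵐ P ∂((volume : Measure (Fin q → ℝ)).prod
      (Measure.pi fun i => Measure.pi fun _ : Fin (n i) => mu (p i))),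
      ∃ C : ℝ, ∀ u, OK u → (hn u : ℝ) ^ (-(2 + ε)) * wt u *
        (FR s u P.1 * ∏ i, FP (p i) s u (P.2 i)) ≤ C := by
  classical
  set ν : Measure (∀ i, Fin (n i) → ℤ_[p i]) :=
    Measure.pi fun i => Measure.pi fun _ : Fin (n i) => mu (p i) with hν
  -- bounded regions
  have hB : ∀ B : ℕ, ∀ᵐ P ∂((Measure.pi fun _ : Fin q =>
      (volume : Measure ℝ).restrict (Icc (-(B : ℝ)) B)).prod ν),
      ∃ C : ℝ, ∀ u, OK u → (hn u : ℝ) ^ (-(2 + ε)) * wt u *
        (FR s u P.1 * ∏ i, FP (p i) s u (P.2 i)) ≤ C := by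
    intro B
    obtain ⟨K, hK, hKi⟩ := FR_int s hs0 hs1 q B
    choose L hL hLi using fun i => FP_int (p i) s hs0 hs1 (n i)
    have key := ae_bound (U := {u : ℤ × ℤ × ℤ // OK u})
      (Measure.pi fun _ : Fin q => (volume : Measure ℝ).restrict (Icc (-(B : ℝ)) B))
      (fun i => Measure.pi fun _ : Fin (n i) => mu (p i))
      (fun u x => FR s u.1 x) (fun i u x => FP (p i) s u.1 x)
      (fun u x => FR_nonneg s u.1 x) (fun i u x => FP_nonneg (p i) s u.1 x)
      (fun u => (hKi u.1 u.2).1) (fun i u => (hLi i u.1 u.2).1)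
      (fun u => (hn u.1 : ℝ) ^ (-(2 + ε)) * wt u.1)
      (fun u => mul_nonneg (by positivity) (wt_pos u.1).le) ?_
    · filter_upwards [key] with P hP
      obtain ⟨C, hC⟩ := hP
      exact ⟨C, fun u hu => hC ⟨u, hu⟩⟩
    · refine Summable.of_nonneg_of_le (fun u => ?_) (fun u => ?_)
        ((summW (Finset.univ.image p) ε hε).mul_left (K * (∏ i, L i) * 5))
      · refine mul_nonneg (mul_nonneg (by positivity) (wt_pos u.1).le) (mul_nonneg
          (integral_nonneg fun x => FR_nonneg s u.1 x) (Finset.prod_nonneg fun i _ =>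
          integral_nonneg fun x => FP_nonneg (p i) s u.1 x))
      · obtain ⟨u, hu⟩ := u
        simp only
        have hd := hu.del_pos
        have hr : ∀ i, 0 < rdp (p i) u := fun i => rdp_pos hu.ds_ne
        have hL0 : 0 ≤ ∏ i, L i := Finset.prod_nonneg fun i _ => hL i
        have h1 : (∏ i, ∫ x, FP (p i) s u x ∂(Measure.pi fun _ : Fin (n i) => mu (p i))) ≤
            (∏ i, rdp (p i) u) ^ (-s) * ∏ i, L i := by
          rw [← Real.finsetProd_rpow _ _ (fun i _ => (hr i).le), ← Finset.prod_mul_distrib]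
          exact Finset.prod_le_prod (fun i _ => integral_nonneg fun x => FP_nonneg (p i) s u x)
            fun i _ => (hLi i u hu).2
        have h2 := mul_le_mul (hKi u hu).2 h1 (Finset.prod_nonneg fun i _ =>
          integral_nonneg fun x => FP_nonneg (p i) s u x) (by positivity)
        have h3 : 0 < ∏ i, rdp (p i) u := Finset.prod_pos fun i _ => hr i
        have h4 : del u * ∏ i, rdp (p i) u =
            Real.sqrt (sf (Finset.univ.image p) (ds u).natAbs) / hn u := by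
          unfold del
          rw [← prod_rd p hp hu.ds_ne]
          ring
        have h5 := wt_gw s ε hs0 hs1 (Finset.univ.image p) hu
        rw [← h4, Real.mul_rpow hd.le h3.le] at h5
        calc _ ≤ (hn u : ℝ) ^ (-(2 + ε)) * wt u *
              (del u ^ (-s) * K * ((∏ i, rdp (p i) u) ^ (-s) * ∏ i, L i)) :=
              mul_le_mul_of_nonneg_left h2 (mul_nonneg (by positivity) (wt_pos u).le)
          _ = K * (∏ i, L i) * ((hn u : ℝ) ^ (-(2 + ε)) * wt u *
              (del u ^ (-s) * (∏ i, rdp (p i) u) ^ (-s))) := by ring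
          _ ≤ K * (∏ i, L i) * (5 * ((hn u : ℝ) ^ (-(1 + ε)) *
              gw (Finset.univ.image p) (ds u).natAbs)) :=
              mul_le_mul_of_nonneg_left h5 (by positivity)
          _ = _ := by ring
  -- the whole space
  have hcov : (⋃ B : ℕ, ((Set.univ.pi fun _ : Fin q => Icc (-(B : ℝ)) B) ×ˢ
      (univ : Set (∀ i, Fin (n i) → ℤ_[p i])))) = univ := by
    rw [eq_univ_iff_forall]
    intro P
    rw [mem_iUnion]
    obtain ⟨B, hBB⟩ := exists_nat_ge (∑ j, |P.1 j|)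
    refine ⟨B, ?_, mem_univ _⟩
    intro j _
    rw [mem_Icc, ← abs_le]
    exact (Finset.single_le_sum (f := fun j => |P.1 j|) (fun j _ => abs_nonneg _)
      (Finset.mem_univ j)).trans hBB
  rw [← Measure.restrict_univ (μ := (volume : Measure (Fin q → ℝ)).prod ν), ← hcov,
    ae_restrict_iUnion_iff]
  intro B
  have h6 := hB B
  rw [← Measure.restrict_pi_pi, ← volume_pi, Measure.restrict_prod_eq_prod_univ] at h6
  exact h6

end Pool.Agent.X124.SA
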