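import Mathlib
import Pool.Agent.X124.SA.Pad
import Pool.Agent.X124.SA.Wt
import Pool.Agent.X124.MV.Sharp2

set_option autoImplicit false

/-!
The proximity function at a finite place; minimal polynomials and coefficient vectors.
-/

namespace Pool.Agent.X124.SA

open Polynomial Pool.Agent.H813R3.Voj Pool.Agent.X124.MV Pool.Agent.H990R4.VJ

variable (p : ℕ) [Fact p.Prime]

/-- the norm as an absolute value -/
noncomputable def av : AbsoluteValue (PadicAlgCl p) ℝ := NormedField.toAbsoluteValue (PadicAlgCl p)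

lemma av_apply (z : PadicAlgCl p) : av p z = ‖z‖ := rfl

lemma av_na : IsNonarchimedean (av p) := PadicAlgCl.isNonarchimedean p

lemma gauss_X_sub_C (z : PadicAlgCl p) : max 1 ‖z‖ ≤ (X - C z).gaussNorm (av p) 1 := by
  have h0 := le_gaussNorm (av p) (X - C z) (zero_le_one) 0
  have h1 := le_gaussNorm (av p) (X - C z) (zero_le_one) 1
  simp only [coeff_sub, coeff_X_zero, coeff_C_zero, zero_sub, pow_zero, mul_one, coeff_X_one,
    one_pow, av_apply, norm_neg] at h0 h1
  rw [coeff_C_of_ne_zero one_ne_zero, sub_zero, norm_one] at h1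
  exact max_le h1 h0

lemma gauss_multiset (s : Multiset (PadicAlgCl p)) :
    (s.map fun z => max 1 ‖z‖).prod ≤ ((s.map fun z => X - C z).prod).gaussNorm (av p) 1 := by
  induction s using Multiset.induction with
  | empty =>
    simp only [Multiset.map_zero, Multiset.prod_zero]
    have h := gaussNorm_C (av p) 1 (1 : PadicAlgCl p)
    rw [C_1] at h
    rw [h, av_apply, norm_one]
  | cons a s ih =>
    rw [Multiset.map_cons, Multiset.prod_cons, Multiset.map_cons, Multiset.prod_cons,
      gaussNorm_mul (av_na p) one_pos]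
    refine mul_le_mul (gauss_X_sub_C p a) ih ?_ ?_
    · refine Multiset.prod_nonneg fun x hx => ?_
      obtain ⟨z, _, rfl⟩ := Multiset.mem_map.1 hx
      positivity
    · exact gaussNorm_nonneg (av p) _ zero_le_one

lemma gauss_map (f : ℤ[X]) : (f.map (Int.castRingHom (PadicAlgCl p))).gaussNorm (av p) 1 ≤ 1 := by
  obtain ⟨i, hi⟩ := exists_eq_gaussNorm (av p) 1 (f.map (Int.castRingHom (PadicAlgCl p)))
  rw [hi, one_pow, mul_one, coeff_map, av_apply]
  have h : ‖((f.coeff i : ℤ) : PadicAlgCl p)‖ = ‖((f.coeff i : ℤ) : ℚ_[p])‖ := by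
    rw [← PadicAlgCl.norm_extends, map_intCast (algebraMap ℚ_[p] (PadicAlgCl p))]
  show ‖((f.coeff i : ℤ) : PadicAlgCl p)‖ ≤ 1
  rw [h]
  exact Padic.norm_int_le_one _

/-- Gauss's lemma -/
lemma gauss_prod (f : ℤ[X]) : ‖(f.leadingCoeff : PadicAlgCl p)‖ *
    ((f.map (Int.castRingHom (PadicAlgCl p))).roots.map fun z => max 1 ‖z‖).prod ≤ 1 := by
  refine le_trans ?_ (gauss_map p f)
  set F := f.map (Int.castRingHom (PadicAlgCl p)) with hF
  have h2 := (IsAlgClosed.splits F).eq_prod_roots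
  have hlc : F.leadingCoeff = (f.leadingCoeff : PadicAlgCl p) := by
    rw [hF, leadingCoeff_map_of_injective (RingHom.injective_int _)]
    rfl
  conv_rhs => rw [h2]
  rw [gaussNorm_mul (av_na p) one_pos, gaussNorm_C, av_apply, hlc]
  exact mul_le_mul_of_nonneg_left (gauss_multiset p _) (norm_nonneg _)

variable {p}

lemma norm_eval_p (f : ℤ[X]) (β : ℤ_[p]) : ‖aeval β f‖ = ‖(f.leadingCoeff : PadicAlgCl p)‖ *
    ((f.map (Int.castRingHom (PadicAlgCl p))).roots.map fun z =>
      ‖z - ((β : ℚ_[p]) : PadicAlgCl p)‖).prod := by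
  set b : PadicAlgCl p := ((β : ℚ_[p]) : PadicAlgCl p) with hb
  set F := f.map (Int.castRingHom (PadicAlgCl p)) with hF
  have h1 : ‖F.eval b‖ = ‖aeval β f‖ := by
    have e1 : aeval (β : ℚ_[p]) f = ((aeval β f : ℤ_[p]) : ℚ_[p]) :=
      aeval_algebraMap_apply ℚ_[p] β f
    have e2 : aeval b f = ((aeval (β : ℚ_[p]) f : ℚ_[p]) : PadicAlgCl p) :=
      aeval_algebraMap_apply (PadicAlgCl p) (β : ℚ_[p]) f
    have e3 : F.eval b = aeval b f := by
      rw [hF, eval_map, aeval_def]
      rfl
    rw [e3, e2, PadicAlgCl.norm_extends, e1]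
    rfl
  rw [← h1]
  have h2 := (IsAlgClosed.splits F).eq_prod_roots
  have h3 := congrArg (fun p => ‖p.eval b‖) h2
  rw [h3, eval_mul, eval_C, norm_mul, eval_multiset_prod, Multiset.map_map]
  congr 1
  · rw [hF, leadingCoeff_map_of_injective (RingHom.injective_int _)]
    rfl
  · have h5 := map_multiset_prod (normHom : PadicAlgCl p →*₀ ℝ)
      (F.roots.map fun z => (X - C z).eval b)
    rw [Multiset.map_map] at h5
    have h6 : Multiset.map (fun z : PadicAlgCl p => ‖(X - C z).eval b‖) F.roots =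
        Multiset.map (fun z : PadicAlgCl p => ‖z - b‖) F.roots := by
      refine Multiset.map_congr rfl fun z _ => ?_
      rw [eval_sub, eval_X, eval_C]
      exact norm_sub_rev b z
    exact h5.trans (congrArg Multiset.prod h6)

/-- the sum of the local heights over the conjugates is at most `- log |f(β)|` -/
theorem prox_p (f : ℤ[X]) (hf : f ≠ 0) (β : ℤ_[p]) (hβ : aeval β f ≠ 0) :
    ((f.map (Int.castRingHom (PadicAlgCl p))).roots.map fun z =>
      Real.log (max 1 ‖z‖ / ‖z - ((β : ℚ_[p]) : PadicAlgCl p)‖)).sum ≤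
      - Real.log ‖aeval β f‖ := by
  set b : PadicAlgCl p := ((β : ℚ_[p]) : PadicAlgCl p) with hb
  set F := f.map (Int.castRingHom (PadicAlgCl p)) with hF
  have hl : (0 : ℝ) < ‖(f.leadingCoeff : PadicAlgCl p)‖ :=
    norm_pos_iff.2 (by exact_mod_cast leadingCoeff_ne_zero.2 hf)
  have hm0 : ∀ z : PadicAlgCl p, max 1 ‖z‖ ≠ 0 := fun z =>
    (lt_of_lt_of_le one_pos (le_max_left _ _)).ne'
  have hE := norm_eval_p f β
  rw [← hb, ← hF] at hE
  have hG0 : ∀ z ∈ F.roots, ‖z - b‖ ≠ 0 := by
    intro z hz h0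
    have hp : (F.roots.map fun z => ‖z - b‖).prod = 0 :=
      Multiset.prod_eq_zero (Multiset.mem_map.2 ⟨z, hz, h0⟩)
    rw [hp, mul_zero, norm_eq_zero] at hE
    exact hβ hE
  have e1 : (F.roots.map fun z => Real.log (max 1 ‖z‖ / ‖z - b‖)).sum =
      (F.roots.map fun z => Real.log (max 1 ‖z‖)).sum -
      (F.roots.map fun z => Real.log ‖z - b‖).sum := by
    rw [← Multiset.sum_map_sub]
    refine congrArg _ (Multiset.map_congr rfl fun z hz => ?_)
    rw [Real.log_div (hm0 z) (hG0 z hz)]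
  have e2 : Real.log ((F.roots.map fun z => max 1 ‖z‖).prod) =
      (F.roots.map fun z => Real.log (max 1 ‖z‖)).sum := by
    rw [Real.log_multiset_prod, Multiset.map_map]
    · rfl
    · intro x hx h0
      obtain ⟨z, _, hz⟩ := Multiset.mem_map.1 hx
      exact hm0 z (hz.trans h0)
  have e3 : Real.log ((F.roots.map fun z => ‖z - b‖).prod) =
      (F.roots.map fun z => Real.log ‖z - b‖).sum := by
    rw [Real.log_multiset_prod, Multiset.map_map]
    · rfl
    · intro x hx h0
      obtain ⟨z, hz', hz⟩ := Multiset.mem_map.1 hx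
      exact hG0 z hz' (hz.trans h0)
  have hp1 : 0 < (F.roots.map fun z => max 1 ‖z‖).prod := by
    refine Multiset.prod_pos fun x hx => ?_
    obtain ⟨z, _, rfl⟩ := Multiset.mem_map.1 hx
    positivity
  have hp2 : (F.roots.map fun z => ‖z - b‖).prod ≠ 0 := by
    intro h0
    obtain ⟨z, hz', hz⟩ := Multiset.mem_map.1 (Multiset.prod_eq_zero_iff.1 h0)
    exact hG0 z hz' hz
  have h3 := gauss_prod p f
  rw [← hF] at h3
  have h4 : Real.log (‖(f.leadingCoeff : PadicAlgCl p)‖ *
      (F.roots.map fun z => max 1 ‖z‖).prod) ≤ 0 :=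
    Real.log_nonpos (by positivity) h3
  rw [Real.log_mul hl.ne' hp1.ne'] at h4
  rw [e1, ← e2, ← e3, hE, Real.log_mul hl.ne' hp2]
  linarith

/-- the local heights are nonnegative -/
lemma local_nonneg (β : ℤ_[p]) (z : PadicAlgCl p) :
    0 ≤ Real.log (max 1 ‖z‖ / ‖z - ((β : ℚ_[p]) : PadicAlgCl p)‖) := by
  rcases (norm_nonneg (z - ((β : ℚ_[p]) : PadicAlgCl p))).eq_or_lt with h | h
  · rw [← h, div_zero, Real.log_zero]
  · apply Real.log_nonneg
    rw [one_le_div h, sub_eq_add_neg]
    refine (PadicAlgCl.isNonarchimedean p _ _).trans ?_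
    rw [norm_neg, PadicAlgCl.norm_extends, max_comm]
    exact max_le_max (PadicInt.norm_le_one β) le_rfl

lemma evp_cu (f : ℤ[X]) (hf : f.natDegree ≤ 2) (β : ℤ_[p]) :
    ‖evp p (cu f) β‖ = ‖aeval β f‖ := by
  have e1 : aeval (β : ℚ_[p]) f = ((aeval β f : ℤ_[p]) : ℚ_[p]) :=
    aeval_algebraMap_apply ℚ_[p] β f
  have e2 : evp p (cu f) β = aeval (β : ℚ_[p]) f := by
    rw [aeval_eq_sum_range' (n := 3) (by omega)]
    unfold evp cu
    simp only [Finset.sum_range_succ, Finset.range_zero, Finset.sum_empty, zsmul_eq_mul]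
    ring
  rw [e2, e1]
  rfl

/-- the coefficient vector of an irreducible polynomial -/
lemma ok_cu {f : ℤ[X]} (hirr : Irreducible f) (hd : f.natDegree = 1 ∨ f.natDegree = 2) :
    OK (cu f) := by
  refine ⟨fun q hq h => ?_, ?_⟩
  · have hdvd : C (q : ℤ) ∣ f := by
      rw [C_dvd_iff_dvd_coeff]
      intro i
      rcases Nat.lt_or_ge i 3 with hi | hi
      · interval_cases i
        · exact h.2.2
        · exact h.2.1
        · exact h.1
      · rw [coeff_eq_zero_of_natDegree_lt (by omega)]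
        exact dvd_zero _
    obtain ⟨g, hg⟩ := hdvd
    rcases hirr.isUnit_or_isUnit hg with hu | hu
    · rw [isUnit_C] at hu
      have := Int.isUnit_iff.1 hu
      have h2 := hq.two_le
      omega
    · have h1 := natDegree_eq_zero_of_isUnit hu
      have h2 : f.natDegree = 0 := by
        rw [hg]
        have := natDegree_C_mul_le (q : ℤ) g
        omega
      omega
  · rcases hd with hd | hd
    · right
      refine ⟨?_, ?_⟩
      · exact coeff_eq_zero_of_natDegree_lt (by omega)
      · show f.coeff 1 ≠ 0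
        rw [← hd, coeff_natDegree, leadingCoeff_ne_zero]; exact hirr.ne_zero
    · left
      exact not_sq hirr hd

end Pool.Agent.X124.SA
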