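import Mathlib
import Pool.Agent.X124.SA.Ae
import Pool.Agent.X124.SA.Prox

set_option autoImplicit false

/-!
Good tuples of points at all places, and the bound for the product of the values.
-/

namespace Pool.Agent.X124.SA

open MeasureTheory Set Pool.Agent.H813R3.Voj Pool.Agent.X124.MV

attribute [local instance] msZ bsZ

/-- the exponent -/
noncomputable def se (k : ℕ) : ℝ := ((k : ℝ) + 1) / ((k : ℝ) + 2)

lemma se_pos (k : ℕ) : 0 < se k := by unfold se; positivity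

lemma se_lt (k : ℕ) : se k < 1 := by
  unfold se
  rw [div_lt_one (by positivity)]
  linarith

/-- good tuples -/
def GoodS {q r : ℕ} (p : Fin r → ℕ) [∀ i, Fact (p i).Prime] (n : Fin r → ℕ)
    (P : (Fin q → ℝ) × (∀ i, Fin (n i) → ℤ_[p i])) : Prop :=
  Function.Injective P.1 ∧ (∀ i, Function.Injective (P.2 i)) ∧
  (∀ u, OK u → (∀ j, MV.ev u (P.1 j) ≠ 0) ∧ ∀ i j, evp (p i) u (P.2 i j) ≠ 0) ∧
  ∀ k : ℕ, ∃ C : ℝ, ∀ u, OK u → (hn u : ℝ) ^ (-(2 + 1 / ((k : ℝ) + 1))) * wt u *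
        (FR (se k) u P.1 * ∏ i, FP (p i) (se k) u (P.2 i)) ≤ C

lemma mu_diag (p : ℕ) [Fact p.Prime] {n : ℕ} {i j : Fin n} (hij : i ≠ j) :
    ∀ᵐ y ∂(Measure.pi fun _ : Fin n => mu p), y i ≠ y j := by
  classical
  set ν : Measure (Fin n → ℤ_[p]) := Measure.pi fun _ => mu p with hν
  set H : Set (Fin n → ℤ_[p]) := {y | y i = y j} with hH
  have hcl : IsClosed H := isClosed_eq (continuous_apply i) (continuous_apply j)
  have hmH : MeasurableSet H := by
    have h1 : Measurable fun y : Fin n → ℤ_[p] => y i - y j := by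
      have a1 : Measurable fun y : Fin n → ℤ_[p] => y i := measurable_pi_apply i
      have a2 : Measurable fun y : Fin n → ℤ_[p] => y j := measurable_pi_apply j
      exact a1.sub a2
    have h2 : H = (fun y : Fin n → ℤ_[p] => y i - y j) ⁻¹' {0} := by
      ext y
      rw [hH, mem_preimage, mem_singleton_iff, mem_ofPred_eq, sub_eq_zero]
    rw [h2]
    exact h1 (measurableSet_singleton 0)
  set T : ℕ → Set (Fin n → ℤ_[p]) := fun k =>
    (fun y => Pi.single i (k : ℤ_[p]) + y) ⁻¹' H with hT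
  have hTm : ∀ k, ν (T k) = ν H := fun k => measure_preimage_add ν _ H
  have hmT : ∀ k, MeasurableSet (T k) := fun k => (measurable_const_add _) hmH
  have hdis : ∀ k l : ℕ, k ≠ l → Disjoint (T k) (T l) := by
    intro k l hkl
    rw [Set.disjoint_left]
    intro y hy hy'
    have h1 : (k : ℤ_[p]) + y i = 0 + y j := by
      have h : ((Pi.single i (k : ℤ_[p]) : Fin n → ℤ_[p]) + y) i =
        ((Pi.single i (k : ℤ_[p]) : Fin n → ℤ_[p]) + y) j := hy
      simpa [hij.symm] using h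
    have h2 : (l : ℤ_[p]) + y i = 0 + y j := by
      have h : ((Pi.single i (l : ℤ_[p]) : Fin n → ℤ_[p]) + y) i =
        ((Pi.single i (l : ℤ_[p]) : Fin n → ℤ_[p]) + y) j := hy'
      simpa [hij.symm] using h
    have h3 : (k : ℤ_[p]) = l := add_right_cancel (h1.trans h2.symm)
    exact hkl (by exact_mod_cast h3)
  have h1 : ∑' k, ν (T k) ≤ 1 := by
    rw [← measure_iUnion (fun k l hkl => hdis k l hkl) hmT]
    exact prob_le_one
  simp only [hTm] at h1
  have h2 : ν H = 0 := by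
    by_contra h0
    rw [ENNReal.tsum_const_eq_top_of_ne_zero h0] at h1
    exact absurd h1 (by simp)
  rw [ae_iff]
  simpa [hH] using h2

lemma ae_evp (p : ℕ) [Fact p.Prime] {u : ℤ × ℤ × ℤ} (hu : OK u) :
    ∀ᵐ x ∂(mu p), evp p u x ≠ 0 := by
  rw [ae_iff]
  have hr := rdp_pos (p := p) hu.ds_ne
  have hp : (0 : ℝ) < p := by exact_mod_cast (Fact.out : p.Prime).pos
  refine le_antisymm ?_ (zero_le)
  refine ENNReal.le_of_forall_pos_le_add fun ε hε _ => ?_
  rw [zero_add]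
  have h1 := mu_le (p := p) u hu.ds_ne (ε * (rdp p u / (2 * p))) (by positivity)
  refine (measure_mono ?_).trans (h1.trans (le_of_eq ?_))
  · intro x hx
    rw [mem_ofPred_eq] at hx ⊢
    rw [not_not.1 hx, norm_zero]
    positivity
  · have : 2 * (p : ℝ) / rdp p u * (ε * (rdp p u / (2 * p))) = ε := by field_simp
    rw [this, ENNReal.ofReal_coe_nnreal]

lemma ae_ev {u : ℤ × ℤ × ℤ} (hu : OK u) : ∀ᵐ x : ℝ, MV.ev u x ≠ 0 := by
  rw [ae_iff]
  have hr := MV.rd_pos hu.ds_ne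
  refine le_antisymm ?_ (zero_le)
  refine ENNReal.le_of_forall_pos_le_add fun ε hε _ => ?_
  rw [zero_add]
  have h1 := vol_le' u hu (ε * (MV.rd u / 8)) (by positivity)
  refine (measure_mono ?_).trans (h1.trans (le_of_eq ?_))
  · intro x hx
    rw [mem_ofPred_eq] at hx ⊢
    rw [not_not.1 hx, abs_zero]
    positivity
  · have : 8 * ((ε : ℝ) * (MV.rd u / 8)) / MV.rd u = ε := by field_simp
    rw [this, ENNReal.ofReal_coe_nnreal]

/-- almost every tuple is good -/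
theorem ae_goodS (q : ℕ) {r : ℕ} (p : Fin r → ℕ) [∀ i, Fact (p i).Prime]
    (hp : Function.Injective p) (n : Fin r → ℕ) :
    ∀ᵐ P ∂((volume : Measure (Fin q → ℝ)).prod
      (Measure.pi fun i => Measure.pi fun _ : Fin (n i) => mu (p i))),
      GoodS p n P ∧ Good P.1 := by
  have h1 : ∀ᵐ P ∂((volume : Measure (Fin q → ℝ)).prod
      (Measure.pi fun i => Measure.pi fun _ : Fin (n i) => mu (p i))), Good P.1 :=
    Measure.quasiMeasurePreserving_fst.ae (ae_good q)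
  have h2 : ∀ᵐ P ∂((volume : Measure (Fin q → ℝ)).prod
      (Measure.pi fun i => Measure.pi fun _ : Fin (n i) => mu (p i))),
      ∀ i, Function.Injective (P.2 i) := by
    refine Measure.quasiMeasurePreserving_snd.ae
      (p := fun y : ∀ i, Fin (n i) → ℤ_[p i] => ∀ i, Function.Injective (y i)) ?_
    rw [ae_all_iff]
    intro i
    refine (Measure.quasiMeasurePreserving_eval
      (μ := fun i => Measure.pi fun _ : Fin (n i) => mu (p i)) i).ae
      (p := fun y : Fin (n i) → ℤ_[p i] => Function.Injective y) ?_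
    have h3 : ∀ᵐ y ∂(Measure.pi fun _ : Fin (n i) => mu (p i)), ∀ j k, j ≠ k → y j ≠ y k := by
      rw [ae_all_iff]; intro j
      rw [ae_all_iff]; intro k
      by_cases hjk : j = k
      · exact Filter.Eventually.of_forall fun y h => (h hjk).elim
      · filter_upwards [mu_diag (p i) hjk] with y hy _ using hy
    filter_upwards [h3] with y hy j k hjk
    by_contra hne
    exact hy j k hne hjk
  have h3 : ∀ᵐ P ∂((volume : Measure (Fin q → ℝ)).prod
      (Measure.pi fun i => Measure.pi fun _ : Fin (n i) => mu (p i))),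
      ∀ u : {u // OK u}, ∀ j, MV.ev u.1 (P.1 j) ≠ 0 := by
    refine Measure.quasiMeasurePreserving_fst.ae
      (p := fun x : Fin q → ℝ => ∀ u : {u // OK u}, ∀ j, MV.ev u.1 (x j) ≠ 0) ?_
    rw [ae_all_iff]; intro u
    rw [ae_all_iff]; intro j
    exact ae_eval j (P := fun x => MV.ev u.1 x ≠ 0) (ae_ev u.2)
  have h4 : ∀ᵐ P ∂((volume : Measure (Fin q → ℝ)).prod
      (Measure.pi fun i => Measure.pi fun _ : Fin (n i) => mu (p i))),
      ∀ u : {u // OK u}, ∀ i j, evp (p i) u.1 (P.2 i j) ≠ 0 := by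
    refine Measure.quasiMeasurePreserving_snd.ae
      (p := fun y : ∀ i, Fin (n i) → ℤ_[p i] => ∀ u : {u // OK u}, ∀ i j,
        evp (p i) u.1 (y i j) ≠ 0) ?_
    rw [ae_all_iff]; intro u
    rw [ae_all_iff]; intro i
    refine (Measure.quasiMeasurePreserving_eval
      (μ := fun i => Measure.pi fun _ : Fin (n i) => mu (p i)) i).ae
      (p := fun y : Fin (n i) → ℤ_[p i] => ∀ j, evp (p i) u.1 (y j) ≠ 0) ?_
    rw [ae_all_iff]; intro j
    exact (Measure.quasiMeasurePreserving_eval (μ := fun _ : Fin (n i) => mu (p i)) j).ae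
      (p := fun x : ℤ_[p i] => evp (p i) u.1 x ≠ 0) (ae_evp (p i) u.2)
  have h5 : ∀ᵐ P ∂((volume : Measure (Fin q → ℝ)).prod
      (Measure.pi fun i => Measure.pi fun _ : Fin (n i) => mu (p i))),
      ∀ k : ℕ, ∃ C : ℝ, ∀ u, OK u → (hn u : ℝ) ^ (-(2 + 1 / ((k : ℝ) + 1))) * wt u *
        (FR (se k) u P.1 * ∏ i, FP (p i) (se k) u (P.2 i)) ≤ C := by
    rw [ae_all_iff]; intro k
    exact ae_main (se k) (1 / ((k : ℝ) + 1)) (se_pos k) (se_lt k) (by positivity) q p hp n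
  filter_upwards [h1, h2, h3, h4, h5] with P g1 g2 g3 g4 g5
  exact ⟨⟨g1.1, g2, fun u hu => ⟨g3 ⟨u, hu⟩, g4 ⟨u, hu⟩⟩, g5⟩, g1⟩

/-- the real place -/
lemma prod_real {q : ℕ} (x : Fin q → ℝ) (hx : Function.Injective x) (s : ℝ) (hs : 0 < s)
    (hs1 : s < 1) : ∃ R : ℝ, 0 < R ∧ ∀ u, OK u → (∀ j, MV.ev u (x j) ≠ 0) →
      ∏ j, (lam u (x j)) ^ (-s) ≤ R * FR s u x := by
  obtain ⟨R, hR, h⟩ := prod_le x hx s hs hs1
  refine ⟨R, hR, fun u hu hev => ?_⟩
  have hn0 := hu.hn_pos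
  have hcoe : ∀ a : ℤ, ‖(a : ℝ) / hn u‖ = (a.natAbs : ℝ) / hn u := by
    intro a
    rw [norm_div, Real.norm_eq_abs, Real.norm_eq_abs, abs_of_pos hn0, Nat.cast_natAbs]
    push_cast
    rfl
  have hle : ∀ a : ℤ, a.natAbs ≤ hn u → ‖(a : ℝ) / hn u‖ ≤ 1 := by
    intro a ha
    rw [hcoe, div_le_one hn0]
    exact_mod_cast ha
  have heq : ∀ a : ℤ, hn u = a.natAbs → ‖(a : ℝ) / hn u‖ = 1 := by
    intro a ha
    rw [hcoe, ← ha, div_self hn0.ne']
  have hval : ∀ t : ℝ, ‖(u.1 : ℝ) / hn u * t ^ 2 + (u.2.1 : ℝ) / hn u * t + (u.2.2 : ℝ) / hn u‖ =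
      lam u t := by
    intro t
    unfold lam MV.ev
    rw [Real.norm_eq_abs, ← abs_of_pos hn0, ← abs_div, abs_of_pos hn0]
    congr 1
    field_simp
  have hdel : Real.sqrt ‖((u.2.1 : ℝ) / hn u) ^ 2 - 4 * ((u.1 : ℝ) / hn u) *
      ((u.2.2 : ℝ) / hn u)‖ = del u := by
    have e1 : ((u.2.1 : ℝ) / hn u) ^ 2 - 4 * ((u.1 : ℝ) / hn u) * ((u.2.2 : ℝ) / hn u) =
        (ds u : ℝ) / (hn u : ℝ) ^ 2 := by
      unfold ds
      push_cast
      field_simp
    rw [e1, norm_div, Real.norm_eq_abs, ← MV.rd_sq, norm_pow, Real.norm_eq_abs,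
      abs_of_pos hn0, ← div_pow]
    exact Real.sqrt_sq (div_nonneg (Real.sqrt_nonneg _) hn0.le)
  have hmax : hn u = u.1.natAbs ∨ hn u = u.2.1.natAbs ∨ hn u = u.2.2.natAbs := by
    unfold hn
    omega
  have hmax2 : u.1.natAbs ≤ hn u ∧ u.2.1.natAbs ≤ hn u ∧ u.2.2.natAbs ≤ hn u := by
    unfold hn
    omega
  have h1 := h ((u.1 : ℝ) / hn u) ((u.2.1 : ℝ) / hn u) ((u.2.2 : ℝ) / hn u)
    (hle _ hmax2.1) (hle _ hmax2.2.1) (hle _ hmax2.2.2) (by
      rcases hmax with h | h | h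
      · exact Or.inl (heq _ h)
      · exact Or.inr (Or.inl (heq _ h))
      · exact Or.inr (Or.inr (heq _ h))) (by
      rw [← Real.sqrt_pos, hdel]; exact hu.del_pos) (fun j => by
      rw [hval]; exact div_pos (abs_pos.2 (hev j)) hn0)
  simp only [hval, hdel] at h1
  exact h1

/-- a finite place -/
lemma prod_padic (p : ℕ) [Fact p.Prime] {q : ℕ} (y : Fin q → ℤ_[p]) (hy : Function.Injective y)
    (s : ℝ) (hs : 0 < s) (hs1 : s < 1) : ∃ R : ℝ, 0 < R ∧ ∀ u, OK u →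
      (∀ j, evp p u (y j) ≠ 0) → ∏ j, ‖evp p u (y j)‖ ^ (-s) ≤ R * FP p s u y := by
  obtain ⟨R, hR, h⟩ := prod_le (fun j => ((y j : ℤ_[p]) : ℚ_[p]))
    (fun a b hab => hy (Subtype.ext hab)) s hs hs1
  refine ⟨R, hR, fun u hu hev => ?_⟩
  have hle : ∀ a : ℤ, ‖(a : ℚ_[p])‖ ≤ 1 := fun a => Padic.norm_int_le_one a
  have heq : ∀ a : ℤ, ¬ ((p : ℤ) ∣ a) → ‖(a : ℚ_[p])‖ = 1 := by
    intro a ha
    refine le_antisymm (hle a) (not_lt.1 fun hlt => ha ?_)
    exact Padic.norm_intCast_lt_one_iff.1 hlt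
  have hprim := hu.1 p (Fact.out : p.Prime)
  have h1 := h (u.1 : ℚ_[p]) (u.2.1 : ℚ_[p]) (u.2.2 : ℚ_[p]) (hle _) (hle _) (hle _) (by
      by_cases h1 : (p : ℤ) ∣ u.1
      · by_cases h2 : (p : ℤ) ∣ u.2.1
        · exact Or.inr (Or.inr (heq _ fun h3 => hprim ⟨h1, h2, h3⟩))
        · exact Or.inr (Or.inl (heq _ h2))
      · exact Or.inl (heq _ h1)) (by
      rw [norm_pos_iff]
      have e : (u.2.1 : ℚ_[p]) ^ 2 - 4 * (u.1 : ℚ_[p]) * (u.2.2 : ℚ_[p]) = ((ds u : ℤ) : ℚ_[p]) := by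
        unfold ds; push_cast; ring
      rw [e]
      exact_mod_cast hu.ds_ne) (fun j => norm_pos_iff.2 (hev j))
  have hdel : Real.sqrt ‖(u.2.1 : ℚ_[p]) ^ 2 - 4 * (u.1 : ℚ_[p]) * (u.2.2 : ℚ_[p])‖ = rdp p u := by
    unfold rdp ds
    push_cast
    rfl
  rw [hdel] at h1
  exact h1

end Pool.Agent.X124.SA
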