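import Mathlib
import Pool.Agent.X124.SA.Log

set_option autoImplicit false

/-!
The bound for the proximity function at all places.
-/

namespace Pool.Agent.X124.SA

open MeasureTheory Set Polynomial Pool.Agent.H813R3.Voj Pool.Agent.X124.MV Pool.Agent.H990R4.VJ
  Pool.Agent.W226.VQ

lemma wt_ge' {u : ℤ × ℤ × ℤ} (hu : OK u) : 1 / (3 * (hn u : ℝ)) ≤ wt u := by
  rcases hu.2 with h | ⟨h1, h2⟩
  · exact wt_ge h
  · have e : (ds u).natAbs = u.2.1.natAbs ^ 2 := by
      unfold ds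
      rw [h1, mul_zero, zero_mul, sub_zero, Int.natAbs_pow]
    have hn1 : (1 : ℝ) ≤ hn u := by exact_mod_cast hu.one_le
    unfold wt
    rw [e, op_sq, Nat.cast_one, Real.one_rpow, div_le_one (by positivity)]
    linarith

/-- the sum of the logarithms of the values at all places -/
theorem sum_log {q r : ℕ} {p : Fin r → ℕ} [∀ i, Fact (p i).Prime] {n : Fin r → ℕ}
    {P : (Fin q → ℝ) × (∀ i, Fin (n i) → ℤ_[p i])} (h : GoodS p n P) (ε : ℝ) (hε : 0 < ε) :
    ∃ C : ℝ, ∀ u, OK u → (∑ j, -Real.log (lam u (P.1 j))) +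
      ∑ i, ∑ j, -Real.log ‖evp (p i) u (P.2 i j)‖ ≤
        (2 + ε) * Real.log (hn u) - Real.log (wt u) + C := by
  obtain ⟨hinj, hinjp, hne, hb⟩ := h
  obtain ⟨k, hk⟩ := exists_nat_one_div_lt (show 0 < ε / 5 by positivity)
  set δ : ℝ := 1 / ((k : ℝ) + 1) with hδ
  have hδ0 : 0 < δ := by positivity
  have hδ1 : δ ≤ 1 := by
    rw [hδ, div_le_one (by positivity)]
    have : (0 : ℝ) ≤ k := Nat.cast_nonneg k
    linarith
  set s : ℝ := se k with hs
  have hs0 : 0 < s := se_pos k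
  have hs1 : s < 1 := se_lt k
  have hsδ : (1 + δ) * s = 1 := by
    rw [hδ, hs]
    unfold se
    field_simp
    ring
  obtain ⟨C, hC⟩ := hb k
  obtain ⟨R0, hR0, h0⟩ := prod_real P.1 hinj s hs0 hs1
  choose R hR hRp using fun i => prod_padic (p i) (P.2 i) (hinjp i) s hs0 hs1
  have hRR : 0 < ∏ i, R i := Finset.prod_pos fun i _ => hR i
  set K : ℝ := R0 * (∏ i, R i) * max C 1 with hK
  have hK0 : 0 < K := by
    have : 0 < max C 1 := lt_of_lt_of_le one_pos (le_max_right _ _)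
    positivity
  refine ⟨2 * |Real.log K| + Real.log 3, fun u hu => ?_⟩
  obtain ⟨hev, hevp⟩ := hne u hu
  have hn1 : (1 : ℝ) ≤ hn u := by exact_mod_cast hu.one_le
  have hn0 : (0 : ℝ) < hn u := by linarith
  have hw := wt_pos u
  have hlam : ∀ j, 0 < lam u (P.1 j) := fun j => div_pos (abs_pos.2 (hev j)) hn0
  have hpp : ∀ i j, 0 < ‖evp (p i) u (P.2 i j)‖ := fun i j => norm_pos_iff.2 (hevp i j)
  set X : ℝ := (∏ j, (lam u (P.1 j)) ^ (-s)) * ∏ i, ∏ j, ‖evp (p i) u (P.2 i j)‖ ^ (-s) with hX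
  have hX1 : ∀ j, 0 < (lam u (P.1 j)) ^ (-s) := fun j => Real.rpow_pos_of_pos (hlam j) _
  have hX2 : ∀ i j, 0 < ‖evp (p i) u (P.2 i j)‖ ^ (-s) := fun i j =>
    Real.rpow_pos_of_pos (hpp i j) _
  have hX3 : 0 < ∏ j, (lam u (P.1 j)) ^ (-s) := Finset.prod_pos fun j _ => hX1 j
  have hX4 : ∀ i, 0 < ∏ j, ‖evp (p i) u (P.2 i j)‖ ^ (-s) := fun i =>
    Finset.prod_pos fun j _ => hX2 i j
  have hX0 : 0 < X := mul_pos hX3 (Finset.prod_pos fun i _ => hX4 i)
  have hXle : X ≤ R0 * (∏ i, R i) * (FR s u P.1 * ∏ i, FP (p i) s u (P.2 i)) := by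
    have e1 := h0 u hu hev
    have e2 : ∏ i, ∏ j, ‖evp (p i) u (P.2 i j)‖ ^ (-s) ≤ ∏ i, (R i * FP (p i) s u (P.2 i)) :=
      Finset.prod_le_prod (fun i _ => (hX4 i).le) fun i _ => hRp i u hu (hevp i)
    rw [Finset.prod_mul_distrib] at e2
    calc X ≤ (R0 * FR s u P.1) * ((∏ i, R i) * ∏ i, FP (p i) s u (P.2 i)) :=
          mul_le_mul e1 e2 (Finset.prod_nonneg fun i _ => (hX4 i).le)
            (mul_nonneg hR0.le (FR_nonneg s u P.1))
      _ = _ := by ring
  have hmain : (hn u : ℝ) ^ (-(2 + δ)) * wt u * X ≤ K := by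
    have e1 := hC u hu
    have e2 := mul_le_mul_of_nonneg_left hXle
      (mul_nonneg (Real.rpow_nonneg hn0.le (-(2 + δ))) hw.le)
    refine e2.trans ?_
    calc _ = R0 * (∏ i, R i) * ((hn u : ℝ) ^ (-(2 + δ)) * wt u *
          (FR s u P.1 * ∏ i, FP (p i) s u (P.2 i))) := by ring
      _ ≤ R0 * (∏ i, R i) * max C 1 :=
          mul_le_mul_of_nonneg_left (e1.trans (le_max_left _ _)) (by positivity)
  have hpow : 0 < (hn u : ℝ) ^ (-(2 + δ)) := Real.rpow_pos_of_pos hn0 _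
  have hlog := Real.log_le_log (by positivity) hmain
  rw [Real.log_mul (by positivity) hX0.ne', Real.log_mul hpow.ne' hw.ne',
    Real.log_rpow hn0] at hlog
  -- the logarithm of the product
  have hlX : Real.log X = s * ((∑ j, -Real.log (lam u (P.1 j))) +
      ∑ i, ∑ j, -Real.log ‖evp (p i) u (P.2 i j)‖) := by
    rw [hX, Real.log_mul hX3.ne' (Finset.prod_pos fun i _ => hX4 i).ne',
      Real.log_prod (fun j _ => (hX1 j).ne'), Real.log_prod (fun i _ => (hX4 i).ne'), mul_add,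
      Finset.mul_sum, Finset.mul_sum]
    congr 1
    · refine Finset.sum_congr rfl fun j _ => ?_
      rw [Real.log_rpow (hlam j)]
      ring
    · refine Finset.sum_congr rfl fun i _ => ?_
      rw [Real.log_prod (fun j _ => (hX2 i j).ne'), Finset.mul_sum]
      refine Finset.sum_congr rfl fun j _ => ?_
      rw [Real.log_rpow (hpp i j)]
      ring
  set S : ℝ := (∑ j, -Real.log (lam u (P.1 j))) +
      ∑ i, ∑ j, -Real.log ‖evp (p i) u (P.2 i j)‖ with hS
  rw [hlX] at hlog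
  set L : ℝ := Real.log (hn u) with hL
  have hL0 : 0 ≤ L := Real.log_nonneg hn1
  have hwlow : -Real.log (wt u) ≤ L + Real.log 3 := by
    have e1 := Real.log_le_log (by positivity) (wt_ge' hu)
    rw [Real.log_div one_ne_zero (by positivity), Real.log_one,
      Real.log_mul (by norm_num) hn0.ne'] at e1
    linarith
  have hl3 : 0 ≤ Real.log 3 := Real.log_nonneg (by norm_num)
  have e1 : S = (1 + δ) * (s * S) := by rw [← mul_assoc, hsδ, one_mul]
  have e2 : s * S ≤ Real.log K + (2 + δ) * L - Real.log (wt u) := by linarith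
  have e3 : (1 + δ) * (s * S) ≤ (1 + δ) * (Real.log K + (2 + δ) * L - Real.log (wt u)) :=
    mul_le_mul_of_nonneg_left e2 (by linarith)
  have e4 : (1 + δ) * Real.log K ≤ 2 * |Real.log K| := by
    have := le_abs_self (Real.log K)
    have := abs_nonneg (Real.log K)
    nlinarith
  have e5 : δ * -Real.log (wt u) ≤ δ * (L + Real.log 3) := mul_le_mul_of_nonneg_left hwlow hδ0.le
  have e6 : δ * Real.log 3 ≤ Real.log 3 := by nlinarith
  have e7 : (1 + δ) * (2 + δ) * L + δ * L ≤ (2 + ε) * L := by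
    rw [← add_mul]
    refine mul_le_mul_of_nonneg_right ?_ hL0
    nlinarith
  rw [e1]
  nlinarith

/-- the sum over a finite place of the local heights -/
lemma prox_p_sum {p : ℕ} [Fact p.Prime] {n : ℕ} (f : ℤ[X]) (hf : f ≠ 0) (β : Fin n → ℤ_[p])
    (hβ : ∀ j, aeval (β j) f ≠ 0) :
    ((f.map (Int.castRingHom (PadicAlgCl p))).roots.map fun z =>
      ∑ j, Real.log (max 1 ‖z‖ / ‖z - ((β j : ℚ_[p]) : PadicAlgCl p)‖)).sum ≤
      ∑ j, -Real.log ‖aeval (β j) f‖ := by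
  have h := Multiset.sum_map_sum_map (f.map (Int.castRingHom (PadicAlgCl p))).roots
    (Finset.univ : Finset (Fin n)).1
    (f := fun z j => Real.log (max 1 ‖z‖ / ‖z - ((β j : ℚ_[p]) : PadicAlgCl p)‖))
  have h2 : ((f.map (Int.castRingHom (PadicAlgCl p))).roots.map fun z =>
      ∑ j, Real.log (max 1 ‖z‖ / ‖z - ((β j : ℚ_[p]) : PadicAlgCl p)‖)).sum =
      ∑ j, ((f.map (Int.castRingHom (PadicAlgCl p))).roots.map fun z =>
        Real.log (max 1 ‖z‖ / ‖z - ((β j : ℚ_[p]) : PadicAlgCl p)‖)).sum := h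
  rw [h2]
  exact Finset.sum_le_sum fun j _ => prox_p f hf (β j) (hβ j)

lemma prox_p_nonneg {p : ℕ} [Fact p.Prime] {n : ℕ} (f : ℤ[X]) (β : Fin n → ℤ_[p]) :
    0 ≤ ((f.map (Int.castRingHom (PadicAlgCl p))).roots.map fun z =>
      ∑ j, Real.log (max 1 ‖z‖ / ‖z - ((β j : ℚ_[p]) : PadicAlgCl p)‖)).sum := by
  refine Multiset.sum_nonneg fun x hx => ?_
  obtain ⟨z, _, rfl⟩ := Multiset.mem_map.1 hx
  exact Finset.sum_nonneg fun j _ => local_nonneg (β j) z

lemma hn_cu_lin (f : ℤ[X]) (hd : f.natDegree = 1) :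
    (hn (cu f) : ℝ) ≤ 4 * mm f := by
  have h1 := (ln_mm f hd).1
  have h2 : hn (cu f) = ln (f.coeff 1, f.coeff 0) := by
    have h3 : f.coeff 2 = 0 := coeff_eq_zero_of_natDegree_lt (by omega)
    unfold hn cu ln
    rw [h3]
    simp
  have hf0 : f ≠ 0 := by rintro rfl; simp at hd
  have := one_le_mm hf0
  rw [h2]
  linarith

/-- **All places.** The sum over the conjugates and the places is at most
`(2 + ε) log M(f) + d + C`. -/
theorem all_pt {q r : ℕ} {p : Fin r → ℕ} [∀ i, Fact (p i).Prime] {n : Fin r → ℕ}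
    {P : (Fin q → ℝ) × (∀ i, Fin (n i) → ℤ_[p i])} (h : GoodS p n P) (ε : ℝ) (hε : 0 < ε) :
    ∃ C : ℝ, ∀ (x : ℂ) (f : ℤ[X]), Irreducible f → (f.natDegree = 1 ∨ f.natDegree = 2) →
      aeval x f = 0 → (∀ j, aeval (P.1 j) f ≠ 0) ∧ (∀ i j, aeval (P.2 i j) f ≠ 0) ∧
      ((f.map (Int.castRingHom ℂ)).roots.map fun z =>
        ∑ j, Real.log (max 1 ‖z‖ * max 1 |P.1 j| / ‖z - (P.1 j : ℂ)‖)).sum +
      ∑ i, ((f.map (Int.castRingHom (PadicAlgCl (p i)))).roots.map fun z =>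
        ∑ j, Real.log (max 1 ‖z‖ / ‖z - ((P.2 i j : ℚ_[p i]) : PadicAlgCl (p i))‖)).sum ≤
        (2 + ε) * Real.log (mm f) + MV.lD x + C := by
  obtain ⟨C, hC⟩ := sum_log h ε hε
  set A : ℝ := ∑ j, Real.log (max 1 |P.1 j|) with hA
  have hA0 : 0 ≤ A := Finset.sum_nonneg fun j _ => Real.log_nonneg (le_max_left _ _)
  refine ⟨q * Real.log 3 + 2 * A + C + (2 + ε) * Real.log 4, fun x f hirr hd hx => ?_⟩
  have hu := ok_cu hirr hd
  obtain ⟨h1, h2⟩ := h.2.2.1 (cu f) hu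
  have hd2 : f.natDegree ≤ 2 := by omega
  have hev : ∀ j, aeval (P.1 j) f ≠ 0 := fun j => by rw [← ev_cu f hd2]; exact h1 j
  have hevp : ∀ i j, aeval (P.2 i j) f ≠ 0 := fun i j => by
    rw [← norm_pos_iff, ← evp_cu f hd2]
    exact norm_pos_iff.2 (h2 i j)
  refine ⟨hev, hevp, ?_⟩
  have h3 := hC (cu f) hu
  have hm : 0 < mm f := lt_of_lt_of_le one_pos (one_le_mm hirr.ne_zero)
  have hn0 := hu.hn_pos
  have h4 : Real.log (mm f) ≤ Real.log 3 + Real.log (hn (cu f)) :=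
    log_comp hm hn0 (by norm_num) (mm_le_hn f hd2)
  have h5 : Real.log (hn (cu f)) ≤ Real.log 4 + Real.log (mm f) := by
    refine log_comp hn0 hm (by norm_num) ?_
    rcases hd with hd | hd
    · exact hn_cu_lin f hd
    · exact hn_le_mm f hd
  have h6 : -Real.log (wt (cu f)) ≤ MV.lD x := by
    rcases hd with hd | hd
    · have e : (ds (cu f)).natAbs = (f.coeff 1).natAbs ^ 2 := by
        have h3 : f.coeff 2 = 0 := coeff_eq_zero_of_natDegree_lt (by omega)
        unfold ds cu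
        rw [h3, mul_zero, zero_mul, sub_zero, Int.natAbs_pow]
      rw [log_wt, e, op_sq]
      simp only [Nat.cast_one, Real.log_one, mul_zero, neg_zero]
      exact lD_nonneg x
    · have e : Real.log (op (dsc (cv f)).natAbs) ≤ 2 * MV.lD x := log_op_le f hirr hd x hx
      rw [log_wt, ds_cu]
      linarith
  have h7 : ∑ j, -Real.log (lam (cu f) (P.1 j)) =
      -(∑ j, Real.log |aeval (P.1 j) f|) + q * Real.log (hn (cu f)) := by
    have e : ∀ j, -Real.log (lam (cu f) (P.1 j)) =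
        -Real.log |aeval (P.1 j) f| + Real.log (hn (cu f)) := by
      intro j
      unfold lam
      rw [ev_cu f hd2, Real.log_div (abs_pos.2 (hev j)).ne' hn0.ne']
      ring
    rw [Finset.sum_congr rfl fun j _ => e j, Finset.sum_add_distrib, Finset.sum_neg_distrib,
      Finset.sum_const, Finset.card_univ, Fintype.card_fin, nsmul_eq_mul]
  have h8 : ∑ i, ((f.map (Int.castRingHom (PadicAlgCl (p i)))).roots.map fun z =>
        ∑ j, Real.log (max 1 ‖z‖ / ‖z - ((P.2 i j : ℚ_[p i]) : PadicAlgCl (p i))‖)).sum ≤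
      ∑ i, ∑ j, -Real.log ‖evp (p i) (cu f) (P.2 i j)‖ := by
    refine Finset.sum_le_sum fun i _ => ?_
    refine (prox_p_sum f hirr.ne_zero (P.2 i) (hevp i)).trans (le_of_eq ?_)
    refine Finset.sum_congr rfl fun j _ => ?_
    rw [evp_cu f hd2]
  have h9 : (f.natDegree : ℝ) * A ≤ 2 * A := by
    refine mul_le_mul_of_nonneg_right ?_ hA0
    exact_mod_cast hd2
  rw [prox_sum f hirr.ne_zero P.1 hev, ← hA]
  have h10 : (q : ℝ) * Real.log (mm f) ≤ q * (Real.log 3 + Real.log (hn (cu f))) :=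
    mul_le_mul_of_nonneg_left h4 (Nat.cast_nonneg _)
  have h11 : (2 + ε) * Real.log (hn (cu f)) ≤ (2 + ε) * (Real.log 4 + Real.log (mm f)) :=
    mul_le_mul_of_nonneg_left h5 (by linarith)
  rw [h7] at h3
  linarith

end Pool.Agent.X124.SA
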